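import Mathlib
import Pool.Graph.R_seed8.Cov.PNT

set_option autoImplicit false

/-!
# Chebyshev type bounds
-/

namespace Pool.Agent.Helper42.WC

open Finset Real

/-- the prime number theorem as an upper bound -/
theorem psi_pnt {ε : ℝ} (hε : 0 < ε) : ∃ C : ℝ, 0 ≤ C ∧ ∀ x : ℝ, 0 ≤ x →
    Chebyshev.psi x ≤ (1 + ε) * x + C := by
  have h := Pool.Agent.Cov.PNT.psi_div_tendsto
  have h1 : ∀ᶠ x : ℝ in Filter.atTop, Chebyshev.psi x / x < 1 + ε :=
    h.eventually_lt_const (by linarith)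
  obtain ⟨x0, hx0⟩ := Filter.eventually_atTop.mp h1
  set x1 : ℝ := max x0 1 with hx1
  refine ⟨Chebyshev.psi x1, Chebyshev.psi_nonneg _, fun x hx => ?_⟩
  by_cases hxx : x1 ≤ x
  · have h2 : 0 < x := lt_of_lt_of_le (by norm_num) ((le_max_right x0 1).trans hxx)
    have h3 := hx0 x ((le_max_left _ _).trans hxx)
    rw [div_lt_iff₀ h2] at h3
    have := Chebyshev.psi_nonneg x1
    linarith
  · push Not at hxx
    have := Chebyshev.psi_mono hxx.le
    have h4 : 0 ≤ (1 + ε) * x := by positivity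
    linarith

lemma psi_succ (n : ℕ) :
    Chebyshev.psi ((n + 1 : ℕ) : ℝ) = Chebyshev.psi n + ArithmeticFunction.vonMangoldt (n + 1) := by
  rw [Chebyshev.psi_eq_sum_Icc, Chebyshev.psi_eq_sum_Icc]
  simp only [Nat.floor_natCast]
  rw [Finset.sum_Icc_succ_top (by omega)]

/-- partial summation -/
lemma vm_div_partial {c : ℝ} (hc : ∀ n : ℕ, Chebyshev.psi n ≤ c * n) (N : ℕ) (hN : 1 ≤ N) :
    ∑ n ∈ Finset.range (N + 1), ArithmeticFunction.vonMangoldt n / n ≤
      Chebyshev.psi N / N + c * Real.log N := by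
  induction N, hN using Nat.le_induction with
  | base =>
    simp [Finset.sum_range_succ, Chebyshev.psi_one]
  | succ N hN ih =>
    rw [Finset.sum_range_succ, psi_succ N]
    have hc0 : 0 ≤ c := by
      have h1 := hc 1
      have h2 := Chebyshev.psi_nonneg ((1 : ℕ) : ℝ)
      push_cast at h1 h2
      linarith
    have hNr : (1 : ℝ) ≤ N := by exact_mod_cast hN
    have hpsi := hc N
    have hlog : 1 / ((N : ℝ) + 1) ≤ Real.log (N + 1) - Real.log N := by
      rw [← Real.log_div (by positivity) (by positivity)]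
      have h1 := Real.one_sub_inv_le_log_of_pos (show (0 : ℝ) < (N + 1) / N by positivity)
      have h2 : 1 - (((N : ℝ) + 1) / N)⁻¹ = 1 / (N + 1) := by
        field_simp
        ring
      rw [h2] at h1
      exact h1
    have key : Chebyshev.psi N / N - Chebyshev.psi N / (N + 1) ≤ c * (1 / ((N : ℝ) + 1)) := by
      have e1 : Chebyshev.psi N / N - Chebyshev.psi N / (N + 1) = Chebyshev.psi N / (N * (N + 1)) := by
        field_simp
        ring
      rw [e1]
      calc Chebyshev.psi N / (N * (N + 1)) ≤ (c * N) / (N * (N + 1)) := by gcongr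
        _ = c * (1 / ((N : ℝ) + 1)) := by field_simp
    have h5 : c * (1 / ((N : ℝ) + 1)) ≤ c * (Real.log (N + 1) - Real.log N) := by gcongr
    push_cast
    rw [add_div]
    linarith

theorem vm_div_le : ∃ c : ℝ, 0 < c ∧ ∀ ℓ : ℝ, 0 ≤ ℓ → ∀ y : ℝ, y ≤ ℓ →
    ∑ n ∈ Finset.range (⌊Real.exp y⌋₊ + 1), ArithmeticFunction.vonMangoldt n / n ≤ c * (1 + ℓ) := by
  set c : ℝ := Real.log 4 + 4 with hc
  have hc0 : 0 < c := by have := Real.log_nonneg (show (1 : ℝ) ≤ 4 by norm_num); linarith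
  refine ⟨c, hc0, fun ℓ hℓ y hy => ?_⟩
  rcases Nat.eq_zero_or_pos ⌊Real.exp y⌋₊ with h0 | h0
  · rw [h0]
    simp
    positivity
  set N := ⌊Real.exp y⌋₊ with hNd
  have h2 := vm_div_partial (c := c) (fun n => Chebyshev.psi_le_const_mul_self (by positivity)) N h0
  have hNr : (1 : ℝ) ≤ N := by exact_mod_cast h0
  have h3 : (N : ℝ) ≤ Real.exp ℓ := (Nat.floor_le (by positivity)).trans (Real.exp_le_exp.mpr hy)
  have h4 : Real.log N ≤ ℓ := by
    rw [Real.log_le_iff_le_exp (by linarith)]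
    exact h3
  have h5 : Chebyshev.psi N / N ≤ c := by
    rw [div_le_iff₀ (by linarith)]
    exact Chebyshev.psi_le_const_mul_self (by positivity)
  nlinarith

end Pool.Agent.Helper42.WC
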