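import Pool.Agent.Helper42.WB.Fl

set_option autoImplicit false

/-!
# The high pass filter with a high order
-/

namespace Pool.Agent.Helper42.WC

open Complex Filter Topology Set MeasureTheory
open scoped ComplexConjugate ContDiff Convolution
open Pool.Agent.Helper61.W
open Pool.Agent.Helper42.WB

variable {g : ℝ → ℂ}

/-- the iterated average -/
noncomputable def avk (b : ℝ) (k : ℕ) (g : ℝ → ℂ) : ℝ → ℂ := (av b)^[k] g

lemma TF_avk (b : ℝ) (h : TF g) (k : ℕ) : TF (avk b k g) := by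
  induction k with
  | zero => exact h
  | succ k ih =>
    unfold avk at ih ⊢
    rw [Function.iterate_succ_apply']
    exact TF.av b ih

lemma LT_avk (b : ℝ) (h : TF g) (k : ℕ) (z : ℂ) : LT (avk b k g) z = Sb b z ^ k * LT g z := by
  induction k with
  | zero => simp [avk]
  | succ k ih =>
    have h1 := TF_avk b h k
    unfold avk at h1 ih ⊢
    rw [Function.iterate_succ_apply', LT_av b h1, ih, pow_succ]
    ring

lemma avk_supp {b c : ℝ} (hs : ∀ x, x ∉ Icc (-c) c → g x = 0) (k : ℕ) :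
    ∀ x, x ∉ Icc (-(c + k * b)) (c + k * b) → avk b k g x = 0 := by
  induction k with
  | zero => simpa [avk] using hs
  | succ k ih =>
    unfold avk at ih ⊢
    rw [Function.iterate_succ_apply']
    have := av_supp (b := b) ih
    have e : c + k * b + b = c + ((k + 1 : ℕ) : ℝ) * b := by push_cast; ring
    rwa [e] at this

/-- the filter -/
noncomputable def flk (b : ℝ) (k : ℕ) (g : ℝ → ℂ) : ℝ → ℂ := fun x => g x - avk b k g x

lemma TF_flk (b : ℝ) (k : ℕ) (h : TF g) : TF (flk b k g) := by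
  have h4 := TF_avk b h k
  exact ⟨h.smooth.sub h4.smooth, h.supp.sub h4.supp⟩

lemma flk_supp {b c : ℝ} (hb : 0 < b) {k : ℕ} (hs : ∀ x, x ∉ Icc (-c) c → g x = 0) :
    ∀ x, x ∉ Icc (-(c + k * b)) (c + k * b) → flk b k g x = 0 := by
  intro x hx
  unfold flk
  have h4 := avk_supp (b := b) hs k
  have hkb : 0 ≤ (k : ℝ) * b := by positivity
  rw [h4 x hx, hs, sub_zero]
  intro h1
  apply hx
  exact ⟨by linarith [h1.1], by linarith [h1.2]⟩

lemma LT_flk (b : ℝ) (k : ℕ) (h : TF g) (z : ℂ) : LT (flk b k g) z = (1 - Sb b z ^ k) * LT g z := by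
  have h4 := TF_avk b h k
  have e : LT (flk b k g) z = LT g z - LT (avk b k g) z := by
    unfold Helper61.W.LT flk
    rw [← integral_sub (h.integrable z) (h4.integrable z)]
    congr 1
    funext u
    ring
  rw [e, LT_avk b h]
  ring

/-- the iterated filter -/
noncomputable def flkm (b : ℝ) (k m : ℕ) (g : ℝ → ℂ) : ℝ → ℂ := (flk b k)^[m] g

lemma TF_flkm (b : ℝ) (k : ℕ) (h : TF g) (m : ℕ) : TF (flkm b k m g) := by
  induction m with
  | zero => exact h
  | succ m ih =>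
    unfold flkm at ih ⊢
    rw [Function.iterate_succ_apply']
    exact TF_flk b k ih

lemma LT_flkm (b : ℝ) (k : ℕ) (h : TF g) (m : ℕ) (z : ℂ) :
    LT (flkm b k m g) z = (1 - Sb b z ^ k) ^ m * LT g z := by
  induction m with
  | zero => simp [flkm]
  | succ m ih =>
    have h1 := TF_flkm b k h m
    unfold flkm at h1 ih ⊢
    rw [Function.iterate_succ_apply', LT_flk b k h1, ih, pow_succ]
    ring

lemma flkm_supp {b c : ℝ} (hb : 0 < b) {k : ℕ} (hs : ∀ x, x ∉ Icc (-c) c → g x = 0) (m : ℕ) :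
    ∀ x, x ∉ Icc (-(c + k * b * m)) (c + k * b * m) → flkm b k m g x = 0 := by
  induction m with
  | zero => simpa [flkm] using hs
  | succ m ih =>
    unfold flkm at ih ⊢
    rw [Function.iterate_succ_apply']
    have := flk_supp (k := k) hb ih
    have e : c + k * b * m + k * b = c + k * b * ((m + 1 : ℕ) : ℝ) := by push_cast; ring
    rwa [e] at this

/-- the multiplier on the line -/
noncomputable def wk (q : ℕ) (x : ℝ) : ℝ := 1 - Real.sinc x ^ (2 * q)

lemma sinc_sq_le (x : ℝ) : Real.sinc x ^ 2 ≤ 1 := by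
  rw [← sq_abs]
  exact pow_le_one₀ (abs_nonneg _) (Real.abs_sinc_le_one x)

lemma wk_le_one (q : ℕ) (x : ℝ) : wk q x ≤ 1 := by
  unfold wk
  rw [pow_mul]
  have : 0 ≤ (Real.sinc x ^ 2) ^ q := by positivity
  linarith

lemma wk_nonneg (q : ℕ) (x : ℝ) : 0 ≤ wk q x := by
  unfold wk
  rw [pow_mul]
  have := pow_le_one₀ (n := q) (sq_nonneg (Real.sinc x)) (sinc_sq_le x)
  linarith

lemma sinc_sq_ge (x : ℝ) : 1 - x ^ 2 / 3 ≤ Real.sinc x ^ 2 := by
  have e : Real.sinc x ^ 2 = Real.sinc |x| ^ 2 := by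
    rcases abs_cases x with ⟨h, _⟩ | ⟨h, _⟩ <;> rw [h]
    rw [Real.sinc_neg]
  rw [e, ← sq_abs x]
  obtain ⟨y, hy⟩ : ∃ y, y = |x| := ⟨_, rfl⟩
  rw [← hy]
  have hy0 : 0 ≤ y := by rw [hy]; positivity
  rcases hy0.eq_or_lt with h0 | h0
  · rw [← h0]
    simp
  by_cases h1 : 3 < y ^ 2
  · nlinarith [sq_nonneg (Real.sinc y)]
  · push Not at h1
    have h2 := Real.sin_ge_sub_cube hy0
    have h3 : 1 - y ^ 2 / 6 ≤ Real.sinc y := by
      rw [Real.sinc_of_ne_zero h0.ne', le_div_iff₀ h0]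
      nlinarith
    nlinarith [sq_nonneg y]

lemma wk_le_sq (q : ℕ) (x : ℝ) : wk q x ≤ q * x ^ 2 / 3 := by
  have h1 := sinc_sq_ge x
  have h2 := one_add_mul_le_pow (a := Real.sinc x ^ 2 - 1) (by nlinarith [sq_nonneg (Real.sinc x)]) q
  rw [show 1 + (Real.sinc x ^ 2 - 1) = Real.sinc x ^ 2 by ring] at h2
  unfold wk
  rw [pow_mul]
  have hq : (0 : ℝ) ≤ q := Nat.cast_nonneg q
  nlinarith

lemma wk_ge_ww {q : ℕ} (hq : 2 ≤ q) (x : ℝ) : ww x ≤ wk q x := by
  unfold ww wk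
  have e : Real.sinc x ^ 4 = (Real.sinc x ^ 2) ^ 2 := by ring
  rw [e, pow_mul]
  have := pow_le_pow_of_le_one (sq_nonneg (Real.sinc x)) (sinc_sq_le x) hq
  linarith

lemma Sb_linek {b : ℝ} (hb : 0 < b) (q : ℕ) (t : ℝ) :
    1 - Sb b (t * I) ^ (2 * q) = ((wk q (b * t) : ℝ) : ℂ) := by
  rw [Sb_line hb]
  unfold wk
  push_cast
  ring

lemma den_flkm {b : ℝ} (hb : 0 < b) (q : ℕ) (h : TF g) (m : ℕ) (t : ℝ) :
    den (flkm b (2 * q) m g) t = den g t * wk q (b * t) ^ (2 * m) := by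
  unfold den
  rw [LT_flkm b _ h, Sb_linek hb, norm_mul, norm_pow, Complex.norm_real, Real.norm_of_nonneg (wk_nonneg _ _),
    mul_pow, ← pow_mul]
  ring

/-- the symbol at the poles -/
lemma Sb_half {b : ℝ} (hb : 0 < b) : ∃ s : ℝ, 1 ≤ s ∧ s ≤ Real.exp (b ^ 2 / 8) ∧ Sb b (1 / 2) = (s : ℂ) ∧
    Sb b (-(1 / 2)) = (s : ℂ) := by
  have h1 : Sb b (1 / 2) = ((Real.sinh (b / 2) / (b / 2) : ℝ) : ℂ) := by
    rw [Sb_eq hb (by norm_num), Real.sinh_eq]
    push_cast
    have hb' : (b : ℂ) ≠ 0 := by exact_mod_cast hb.ne'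
    rw [show (b : ℂ) * (1 / 2) = b / 2 by ring]
    field_simp
  have h2 : Sb b (-(1 / 2)) = ((Real.sinh (b / 2) / (b / 2) : ℝ) : ℂ) := by
    have h3 := Sb_symm hb (1 / 2)
    have hcj : conj (1 / 2 : ℂ) = 1 / 2 := by
      have : (1 / 2 : ℂ) = ((1 / 2 : ℝ) : ℂ) := by push_cast; rfl
      rw [this, Complex.conj_ofReal]
    rw [hcj, h1, Complex.conj_ofReal] at h3
    exact h3
  have hb2 : 0 < b / 2 := by positivity
  refine ⟨_, ?_, ?_, h1, h2⟩
  · rw [one_le_div hb2]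
    exact Real.self_le_sinh_iff.mpr hb2.le
  · rw [div_le_iff₀ hb2]
    have h4 : Real.sinh (b / 2) ≤ b / 2 * Real.cosh (b / 2) := by
      obtain ⟨c, hc, hce⟩ := exists_hasDerivAt_eq_slope Real.sinh Real.cosh hb2
        Real.continuous_sinh.continuousOn (fun x _ => Real.hasDerivAt_sinh x)
      rw [Real.sinh_zero, sub_zero, sub_zero, eq_div_iff hb2.ne'] at hce
      have h7 : Real.cosh c ≤ Real.cosh (b / 2) := by
        rw [Real.cosh_le_cosh, abs_of_pos hc.1, abs_of_pos hb2]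
        exact hc.2.le
      nlinarith
    have h6 := Real.cosh_le_exp_half_sq (b / 2)
    rw [show (b / 2) ^ 2 / 2 = b ^ 2 / 8 by ring] at h6
    nlinarith

end Pool.Agent.Helper42.WC
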