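import Pool.Agent.Helper42.WC.Schur

set_option autoImplicit false

/-!
# The lower bound from the explicit formula, sharp constants
-/

namespace Pool.Agent.Helper42.WC

open Complex Filter Topology Set MeasureTheory
open scoped ComplexConjugate ContDiff
open Pool.Agent.Helper61.W
open Pool.Agent.Helper42.WB
open Pool.Agent.V11271.LI (Zr mm cfg_zeta zz)

variable {g : ℝ → ℂ}

/-- the polar part -/
lemma polar_eq (h : TF g) : 2 * (∫ u in Ioi (0 : ℝ), (corr g u).re * Real.exp (1 / 2 * u)) =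
    (LT (corr g) (1 / 2) + LT (corr g) (-(1 / 2))).re -
      2 * ∫ u in Ioi (0 : ℝ), (corr g u).re * Real.exp (-(1 / 2) * u) := by
  have hc := h.corr
  have key : ∀ z : ℂ, LT (corr g) z = (∫ u in Ioi (0 : ℝ), corr g u * cexp (z * u)) +
      ∫ u in Ioi (0 : ℝ), corr g (-u) * cexp (-z * u) := by
    intro z
    have i1 : Integrable (fun u : ℝ => corr g u * cexp (z * u)) := hc.integrable z
    have e1 : ∫ u in Iic (0 : ℝ), corr g u * cexp (z * u) = ∫ u in Ioi (0 : ℝ), corr g (-u) * cexp (-z * u) := by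
      have h1 := integral_comp_neg_Ioi (0 : ℝ) (fun u : ℝ => corr g u * cexp (z * u))
      rw [neg_zero] at h1
      rw [← h1]
      refine setIntegral_congr_fun measurableSet_Ioi fun u _ => ?_
      beta_reduce
      congr 2
      push_cast
      ring
    unfold Helper61.W.LT
    rw [← intervalIntegral.integral_Iic_add_Ioi (b := 0) i1.integrableOn i1.integrableOn, e1]
    ring
  have i1 : ∀ z : ℂ, IntegrableOn (fun u : ℝ => corr g u * cexp (z * u)) (Ioi 0) := fun z =>
    (hc.integrable z).integrableOn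
  have i2 : ∀ z : ℂ, IntegrableOn (fun u : ℝ => corr g (-u) * cexp (z * u)) (Ioi 0) := fun z =>
    (hc.neg_arg.integrable z).integrableOn
  have e2 : ∀ b : ℝ, (∫ u in Ioi (0 : ℝ), corr g u * cexp ((b : ℂ) * u)) +
      ∫ u in Ioi (0 : ℝ), corr g (-u) * cexp ((b : ℂ) * u) =
      ((2 * ∫ u in Ioi (0 : ℝ), (corr g u).re * Real.exp (b * u) : ℝ) : ℂ) := by
    intro b
    rw [← integral_add (i1 _) (i2 _), ← integral_const_mul, ← integral_complex_ofReal]
    congr 1
    funext u
    rw [← add_mul, corr_add]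
    push_cast
    ring
  have e3 : LT (corr g) (1 / 2) + LT (corr g) (-(1 / 2)) =
      ((2 * ∫ u in Ioi (0 : ℝ), (corr g u).re * Real.exp (1 / 2 * u) : ℝ) : ℂ) +
      ((2 * ∫ u in Ioi (0 : ℝ), (corr g u).re * Real.exp (-(1 / 2) * u) : ℝ) : ℂ) := by
    rw [key, key, ← e2, ← e2]
    push_cast
    rw [neg_neg]
    ring
  rw [e3, Complex.add_re, Complex.ofReal_re, Complex.ofReal_re]
  ring

lemma polar_ge (h : TF g) : -(2 * (‖LT g (1 / 2)‖ * ‖LT g (-(1 / 2))‖)) - 4 * en g ≤
    2 * (∫ u in Ioi (0 : ℝ), (corr g u).re * Real.exp (1 / 2 * u)) := by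
  rw [polar_eq h]
  have h1 := arch_term h (x := 1 / 2) (by norm_num)
  rw [h1]
  have h2 : 1 / (2 * Real.pi) * ∫ t, den g t * (2 * (1 / 2) / ((1 / 2) ^ 2 + t ^ 2)) ≤ 4 * en g := by
    have hp := Real.pi_pos
    have h3 : ∫ t, den g t * (2 * (1 / 2) / ((1 / 2) ^ 2 + t ^ 2)) ≤ ∫ t, den g t * 4 := by
      refine integral_mono ?_ ((integrable_den0 h).mul_const 4) fun t => ?_
      · refine integrable_den1 h (continuous_const.div (by fun_prop) fun t => by positivity) (K := 4) fun y => ?_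
        rw [abs_of_nonneg (by positivity), div_le_iff₀ (by positivity)]
        nlinarith [sq_nonneg y]
      · simp only
        have := den_nonneg g t
        gcongr
        rw [div_le_iff₀ (by positivity)]
        nlinarith [sq_nonneg t]
    rw [integral_mul_const, en_eq h] at h3
    calc 1 / (2 * Real.pi) * ∫ t, den g t * (2 * (1 / 2) / ((1 / 2) ^ 2 + t ^ 2)) ≤
          1 / (2 * Real.pi) * (2 * Real.pi * en g * 4) := by gcongr
      _ = 4 * en g := by field_simp
  have h3 : -(2 * (‖LT g (1 / 2)‖ * ‖LT g (-(1 / 2))‖)) ≤ (LT (corr g) (1 / 2) + LT (corr g) (-(1 / 2))).re := by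
    have h4 : ‖LT (corr g) (1 / 2) + LT (corr g) (-(1 / 2))‖ ≤ 2 * (‖LT g (1 / 2)‖ * ‖LT g (-(1 / 2))‖) := by
      refine (norm_add_le _ _).trans ?_
      have hcj : conj (1 / 2 : ℂ) = 1 / 2 := by
        have : (1 / 2 : ℂ) = ((1 / 2 : ℝ) : ℂ) := by push_cast; rfl
        rw [this, Complex.conj_ofReal]
      rw [LT_corr h, LT_corr h, map_neg, neg_neg, hcj, norm_mul, norm_mul, RCLike.norm_conj, RCLike.norm_conj]
      linarith
    have h5 := (abs_le.mp (Complex.abs_re_le_norm (LT (corr g) (1 / 2) + LT (corr g) (-(1 / 2))))).1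
    linarith
  linarith

/-- **The lower bound.** -/
theorem weil_lower {ε C cm : ℝ} (hψ : ∀ x : ℝ, 0 ≤ x → Chebyshev.psi x ≤ (1 + ε) * x + C)
    (hm : ∀ ℓ : ℝ, 0 ≤ ℓ → ∀ y : ℝ, y ≤ ℓ →
      ∑ n ∈ Finset.range (⌊Real.exp y⌋₊ + 1), ArithmeticFunction.vonMangoldt n / n ≤ cm * (1 + ℓ))
    (h : TF g) {c : ℝ} (hc : 0 ≤ c) (hs : ∀ x, x ∉ Icc (-c) c → g x = 0) (N : ℕ) :
    1 / (2 * Real.pi) * (∫ t, den g t * ∑ n ∈ Finset.range N, aw n t) -
      ((1 + ε) * Real.exp c + cm * (1 + 2 * c) + C + 7) * en g -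
      2 * (‖LT g (1 / 2)‖ * ‖LT g (-(1 / 2))‖) ≤ (∑' ρ : Zr, tm (corr g) ρ).re := by
  rw [weil_eq h, Complex.ofReal_re]
  unfold JJ
  have h0 := en_nonneg g
  have hs2 : ∀ u, 2 * c < |u| → corr g u = 0 := fun u hu => corr_zero_of hs hu
  -- polar
  have hP := polar_ge h
  -- constants
  have hC : (Real.eulerMascheroniConstant + Real.log Real.pi) * (corr g 0).re ≤ 3 * en g := by
    have h1 := Real.eulerMascheroniConstant_lt_two_thirds
    have h2 : Real.log Real.pi ≤ Real.pi - 1 := Real.log_le_sub_one_of_pos Real.pi_pos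
    have h3 := Real.pi_lt_d2
    have : Real.eulerMascheroniConstant + Real.log Real.pi ≤ 3 := by linarith
    exact mul_le_mul_of_nonneg_right this h0
  -- archimedean
  have hA : 1 / (2 * Real.pi) * (∫ t, den g t * ∑ n ∈ Finset.range N, aw n t) ≤
      ∑' n : ℕ, ((corr g 0).re / (n + 1) - 2 * ∫ u in Ioi (0 : ℝ), (corr g u).re * Real.exp (-(2 * n + 5 / 2) * u)) := by
    have h1 : 1 / (2 * Real.pi) * (∫ t, den g t * ∑ n ∈ Finset.range N, aw n t) =
        ∑ n ∈ Finset.range N, ((corr g 0).re / (n + 1) -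
          2 * ∫ u in Ioi (0 : ℝ), (corr g u).re * Real.exp (-(2 * n + 5 / 2) * u)) := by
      have e1 : ∀ t, den g t * ∑ n ∈ Finset.range N, aw n t = ∑ n ∈ Finset.range N, den g t * aw n t :=
        fun t => Finset.mul_sum _ _ _
      rw [integral_congr_ae (Eventually.of_forall e1), integral_finsetSum _ (fun n _ =>
        integrable_den1 h (aw_cont n) (K := 1) (fun y => by
          rw [abs_of_nonneg (aw_nonneg n y)]; exact aw_le_one n y)), Finset.mul_sum]
      exact Finset.sum_congr rfl fun n _ => (arch_eq h n).symm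
    rw [h1]
    refine (arch_summable h).sum_le_tsum _ fun n _ => ?_
    rw [arch_eq h n]
    have : 0 ≤ ∫ t, den g t * aw n t := integral_nonneg fun t => mul_nonneg (den_nonneg g t) (aw_nonneg n t)
    positivity
  -- primes
  have hΛ : ∑' n : ℕ, 2 * (ArithmeticFunction.vonMangoldt n / Real.sqrt n) * (corr g (Real.log n)).re ≤
      ((1 + ε) * Real.exp c + cm * (1 + 2 * c) + C) * en g := by
    rw [tsum_eq_sum (s := Finset.range (⌊Real.exp (2 * c)⌋₊ + 1))]
    · exact prime_le hψ hm h hc hs _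
    · intro n hn
      rw [Finset.mem_range, not_lt] at hn
      have h1 : Real.exp (2 * c) < n := by
        have := Nat.lt_floor_add_one (Real.exp (2 * c))
        have h2 : ((⌊Real.exp (2 * c)⌋₊ + 1 : ℕ) : ℝ) ≤ n := by exact_mod_cast hn
        push_cast at h2
        linarith
      have h2 : 2 * c < Real.log n := by
        rw [Real.lt_log_iff_exp_lt (lt_trans (Real.exp_pos _) h1)]
        exact h1
      rw [hs2 _ (lt_of_lt_of_le h2 (le_abs_self _))]
      simp
  linarith

end Pool.Agent.Helper42.WC
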