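import Pool.Agent.Helper42.WB.Er
import Pool.Agent.Helper42.WC.Fk
import Pool.Agent.Helper42.WC.Low

set_option autoImplicit false

/-!
# The zeros far away
-/

namespace Pool.Agent.Helper42.WC

open Complex Filter Topology Set MeasureTheory
open scoped ComplexConjugate ContDiff
open Pool.Agent.Helper61.W
open Pool.Agent.Helper42.WB
open Pool.Agent.V11271.LI (Zr mm cfg_zeta zz)

variable {g : ℝ → ℂ}

lemma LT_corr_flkm {b : ℝ} (hb : 0 < b) (k : ℕ) (h : TF g) (m : ℕ) (z : ℂ) :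
    LT (corr (flkm b k m g)) z = (1 - Sb b z ^ k) ^ (2 * m) * LT (corr g) z := by
  rw [LT_corr (TF_flkm b k h m), LT_corr h, LT_flkm b k h, LT_flkm b k h, Sb_symm hb, map_mul, map_pow, map_sub,
    map_pow, Complex.conj_conj, map_one, two_mul, pow_add]
  ring

lemma tm_flkm {b : ℝ} (hb : 0 < b) (k : ℕ) (h : TF g) (m : ℕ) (ρ : Zr) :
    tm (corr (flkm b k m g)) ρ = (1 - Sb b ((ρ : ℂ) - 1 / 2) ^ k) ^ (2 * m) * tm (corr g) ρ := by
  unfold tm
  rw [LT_corr_flkm hb k h]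
  ring

/-- the parameters of the filter -/
noncomputable def bb (σ : ℝ) (q n : ℕ) : ℝ := σ / (8 * q * n)

/-- the filtered function -/
noncomputable def QQ (σ : ℝ) (q n : ℕ) (g : ℝ → ℂ) : ℝ → ℂ := flkm (bb σ q n) (2 * q) (2 * n) g

lemma bb_pos {σ : ℝ} (hσ : 0 < σ) {q n : ℕ} (hq : 2 ≤ q) (hn : 1 ≤ n) : 0 < bb σ q n := by
  unfold bb
  have : (0 : ℝ) < q := by exact_mod_cast (by omega : 0 < q)
  have : (0 : ℝ) < n := by exact_mod_cast hn
  positivity

lemma bb_le {σ : ℝ} (hσ1 : σ ≤ 1) {q n : ℕ} (hq : 2 ≤ q) (hn : 1 ≤ n) : bb σ q n ≤ 1 := by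
  unfold bb
  have hq' : (2 : ℝ) ≤ q := by exact_mod_cast hq
  have hn' : (1 : ℝ) ≤ n := by exact_mod_cast hn
  rw [div_le_one (by positivity)]
  nlinarith

lemma TF_QQ (σ : ℝ) (q n : ℕ) (h : TF g) : TF (QQ σ q n g) := TF_flkm _ _ h _

lemma QQ_supp {σ L : ℝ} (hσ : 0 < σ) (hs : ∀ x, x ∉ Icc (-(L / 2)) (L / 2) → g x = 0) {q n : ℕ}
    (hq : 2 ≤ q) (hn : 1 ≤ n) :
    ∀ x, x ∉ Icc (-((L + σ) / 2)) ((L + σ) / 2) → QQ σ q n g x = 0 := by
  have h1 := flkm_supp (k := 2 * q) (bb_pos hσ hq hn) hs (2 * n)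
  have hq' : (0 : ℝ) < q := by exact_mod_cast (by omega : 0 < q)
  have hn' : (0 : ℝ) < n := by exact_mod_cast hn
  have e : L / 2 + ((2 * q : ℕ) : ℝ) * bb σ q n * ((2 * n : ℕ) : ℝ) = (L + σ) / 2 := by
    unfold bb
    push_cast
    field_simp
    ring
  rwa [e] at h1

/-- **Comparison of the two functionals.** -/
theorem compare (h : TF g) {L σ : ℝ} (hL : 0 < L) (hσ0 : 0 < σ) (hσ1 : σ ≤ 1)
    (hs : ∀ x, x ∉ Icc (-(L / 2)) (L / 2) → g x = 0)
    {q n : ℕ} (hq : 2 ≤ q) (hn : 1 ≤ n) {H : ℝ} (hH1 : 1 ≤ H)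
    (hHn : 8 * n * (16 * q * n / σ) ^ (2 * q) ≤ H ^ (2 * q))
    (hz : ∀ ρ : Zr, |(ρ : ℂ).im| < H → (ρ : ℂ).re ≠ 1 / 2 →
      LT g ((ρ : ℂ) - 1 / 2) = 0 ∨ LT g (1 / 2 - conj (ρ : ℂ)) = 0) :
    (∑' ρ : Zr, tm (corr (QQ σ q n g)) ρ).re -
      16 * n * (4 * (16 * q * n / σ) ^ (2 * q) / H ^ (2 * q - 2)) * ((L + 1) * Real.exp ((L + 1) / 2)) * ZZ *
        en (QQ σ q n g) ≤ (∑' ρ : Zr, tm (corr g) ρ).re := by
  have hnr : (1 : ℝ) ≤ n := by exact_mod_cast hn
  have hqr : (2 : ℝ) ≤ q := by exact_mod_cast hq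
  set b : ℝ := bb σ q n with hb
  have hb0 : 0 < b := bb_pos hσ0 hq hn
  have hb1 : b ≤ 1 := bb_le hσ1 hq hn
  set Q := QQ σ q n g with hQ
  have hqT : TF Q := TF_QQ σ q n h
  have hqs : ∀ x, x ∉ Icc (-((L + σ) / 2)) ((L + σ) / 2) → Q x = 0 := QQ_supp hσ0 hs hq hn
  have hc0 : 0 < (L + σ) / 2 := by linarith
  set B : ℝ := (L + 1) * Real.exp ((L + 1) / 2) * en Q with hB
  have hB0 : 0 ≤ B := by have := en_nonneg Q; positivity
  have hLT : ∀ z : ℂ, |z.re| ≤ 1 / 2 → ‖LT Q z‖ ^ 2 ≤ B := by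
    intro z hz
    refine (LT_sq_le hqT hc0 hqs hz).trans ?_
    rw [hB]
    have := en_nonneg Q
    gcongr
    linarith
  have S1 := summable_tm h.corr
  have S2 := summable_tm hqT.corr
  set D : ℝ := 16 * q * n / σ with hD
  have hD0 : 0 < D := by positivity
  -- termwise
  set K : ℝ := 16 * n * (4 * D ^ (2 * q) / H ^ (2 * q - 2)) * B with hK
  have hK0 : 0 ≤ K := by positivity
  have S3 : Summable (fun ρ : Zr => K * (mm ρ / (1 + |(zz ρ).im|) ^ (2 : ℝ))) :=
    (cfg_zeta.sum 2 (by norm_num)).mul_left K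
  have hterm : ∀ ρ : Zr, (tm (corr Q) ρ).re - K * (mm ρ / (1 + |(zz ρ).im|) ^ (2 : ℝ)) ≤ (tm (corr g) ρ).re := by
    intro ρ
    have hm : 0 ≤ mm ρ := cfg_zeta.m_nonneg ρ
    have hE0 : 0 ≤ K * (mm ρ / (1 + |(zz ρ).im|) ^ (2 : ℝ)) := by positivity
    have hrel : tm (corr Q) ρ = (1 - Sb b ((ρ : ℂ) - 1 / 2) ^ (2 * q)) ^ (2 * (2 * n)) * tm (corr g) ρ :=
      tm_flkm hb0 (2 * q) h (2 * n) ρ
    have hre1 := ρ.2.2.1
    have hre2 := ρ.2.2.2
    by_cases hline : (ρ : ℂ).re = 1 / 2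
    · -- on the line
      have hu : (ρ : ℂ) - 1 / 2 = (((ρ : ℂ).im : ℝ) : ℂ) * I := by
        apply Complex.ext
        · simp [hline]
        · simp
      have e1 : tm (corr g) ρ = ((mm ρ * den g (ρ : ℂ).im : ℝ) : ℂ) := by
        unfold tm
        rw [hu]
        have := den_eq h (ρ : ℂ).im
        rw [Complex.ofReal_zero, zero_add] at this
        rw [this]
        push_cast
        rfl
      have e2 : tm (corr Q) ρ = ((wk q (b * (ρ : ℂ).im) ^ (2 * (2 * n)) * (mm ρ * den g (ρ : ℂ).im) : ℝ) : ℂ) := by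
        rw [hrel, e1, hu, Sb_linek hb0]
        push_cast
        rfl
      rw [e1, e2, Complex.ofReal_re, Complex.ofReal_re]
      have h1 : wk q (b * (ρ : ℂ).im) ^ (2 * (2 * n)) ≤ 1 := pow_le_one₀ (wk_nonneg _ _) (wk_le_one _ _)
      have h2 : 0 ≤ mm ρ * den g (ρ : ℂ).im := mul_nonneg hm (den_nonneg _ _)
      nlinarith
    · by_cases hlow : |(ρ : ℂ).im| < H
      · -- low zeros off the line
        have h0 : tm (corr g) ρ = 0 := by
          unfold tm
          rw [LT_corr h]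
          have e : -conj ((ρ : ℂ) - 1 / 2) = 1 / 2 - conj (ρ : ℂ) := by
            rw [map_sub]
            have : conj (1 / 2 : ℂ) = 1 / 2 := by
              have : (1 / 2 : ℂ) = ((1 / 2 : ℝ) : ℂ) := by push_cast; rfl
              rw [this, Complex.conj_ofReal]
            rw [this]
            ring
          rw [e]
          rcases hz ρ hlow hline with h1 | h1
          · rw [h1]
            simp
          · rw [h1]
            simp
        rw [hrel, h0, mul_zero]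
        simp only [Complex.zero_re]
        linarith
      · -- high zeros
        push Not at hlow
        have hzre : ((ρ : ℂ) - 1 / 2).re = (ρ : ℂ).re - 1 / 2 := by simp
        have hzim : ((ρ : ℂ) - 1 / 2).im = (ρ : ℂ).im := by simp
        have hare : |((ρ : ℂ) - 1 / 2).re| ≤ 1 / 2 := by
          rw [hzre, abs_le]
          constructor <;> linarith
        obtain ⟨y, hy⟩ : ∃ y, y = |(ρ : ℂ).im| := ⟨_, rfl⟩
        have hyH : H ≤ y := by rw [hy]; exact hlow
        have hy1 : 1 ≤ y := hH1.trans hyH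
        have hne : ((ρ : ℂ) - 1 / 2).im ≠ 0 := by
          rw [hzim]
          intro h0
          rw [h0, abs_zero] at hy
          linarith
        have hS := Sb_norm hb0 hb1 hare hne
        rw [hzim, ← hy] at hS
        set S := Sb b ((ρ : ℂ) - 1 / 2) with hSdef
        have hSD : 2 / (b * y) = D / y := by
          rw [hb, hD]
          unfold bb
          field_simp
          norm_num
        rw [hSD] at hS
        set ε : ℝ := (D / y) ^ (2 * q) with hε
        have hw : ‖S ^ (2 * q)‖ ≤ ε := by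
          rw [norm_pow]
          exact pow_le_pow_left₀ (norm_nonneg _) hS _
        have hεeq : ε = D ^ (2 * q) / y ^ (2 * q) := by
          rw [hε, div_pow]
        have hyp : 0 < y ^ (2 * q) := by positivity
        have hε2 : ((2 * (2 * n) : ℕ) : ℝ) * ε ≤ 1 / 2 := by
          rw [hεeq]
          push_cast
          have h1 : H ^ (2 * q) ≤ y ^ (2 * q) := by gcongr
          rw [mul_div_assoc', div_le_iff₀ hyp]
          linarith
        obtain ⟨hn1, hn2⟩ := pow_near hw hε2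
        have hT : ‖tm (corr g) ρ‖ ≤ 2 * ‖tm (corr Q) ρ‖ := by
          rw [hrel, norm_mul]
          nlinarith [norm_nonneg (tm (corr g) ρ)]
        have hqn : ‖tm (corr Q) ρ‖ ≤ mm ρ * B := by
          unfold tm
          rw [norm_mul, Complex.norm_real, Real.norm_of_nonneg hm]
          gcongr
          rw [LT_corr hqT, norm_mul, RCLike.norm_conj]
          have h1 := hLT _ hare
          have h2 := hLT (-conj ((ρ : ℂ) - 1 / 2)) (by
            have : (-conj ((ρ : ℂ) - 1 / 2)).re = -((ρ : ℂ) - 1 / 2).re := by simp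
            rw [this, abs_neg]
            exact hare)
          nlinarith [sq_nonneg (‖LT Q ((ρ : ℂ) - 1 / 2)‖ - ‖LT Q (-conj ((ρ : ℂ) - 1 / 2))‖)]
        have hdiff : ‖tm (corr g) ρ - tm (corr Q) ρ‖ ≤ 16 * n * ε * (mm ρ * B) := by
          have e1 : tm (corr g) ρ - tm (corr Q) ρ = (1 - (1 - S ^ (2 * q)) ^ (2 * (2 * n))) * tm (corr g) ρ := by
            rw [hrel]
            ring
          rw [e1, norm_mul]
          have h0 : 0 ≤ ε := by positivity
          calc ‖1 - (1 - S ^ (2 * q)) ^ (2 * (2 * n))‖ * ‖tm (corr g) ρ‖ ≤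
                (2 * ((2 * (2 * n) : ℕ) : ℝ) * ε) * (2 * (mm ρ * B)) :=
                mul_le_mul hn1 (by linarith) (norm_nonneg _) (by positivity)
            _ = 16 * n * ε * (mm ρ * B) := by push_cast; ring
        have hε3 : ε ≤ 4 * D ^ (2 * q) / H ^ (2 * q - 2) / (1 + y) ^ 2 := by
          rw [hεeq, div_div, div_le_div_iff₀ (by positivity) (by positivity)]
          have h1 : (1 + y) ^ 2 ≤ 4 * y ^ 2 := by nlinarith
          have h2 : H ^ (2 * q - 2) ≤ y ^ (2 * q - 2) := by gcongr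
          have h3 : H ^ (2 * q - 2) * (1 + y) ^ 2 ≤ y ^ (2 * q - 2) * (4 * y ^ 2) := by gcongr
          have h4 : y ^ (2 * q - 2) * y ^ 2 = y ^ (2 * q) := by
            rw [← pow_add]
            congr 1
            omega
          have h5 : 0 ≤ D ^ (2 * q) := by positivity
          calc D ^ (2 * q) * (H ^ (2 * q - 2) * (1 + y) ^ 2) ≤ D ^ (2 * q) * (y ^ (2 * q - 2) * (4 * y ^ 2)) := by
                gcongr
            _ = 4 * D ^ (2 * q) * (y ^ (2 * q - 2) * y ^ 2) := by ring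
            _ = 4 * D ^ (2 * q) * y ^ (2 * q) := by rw [h4]
        have hfin : ‖tm (corr g) ρ - tm (corr Q) ρ‖ ≤ K * (mm ρ / (1 + |(zz ρ).im|) ^ (2 : ℝ)) := by
          have e2 : (zz ρ).im = (ρ : ℂ).im := V11271.LI.zz_im ρ
          have e3 : (1 + |(zz ρ).im|) ^ (2 : ℝ) = (1 + y) ^ 2 := by
            rw [e2, ← hy]
            norm_cast
          rw [e3]
          calc ‖tm (corr g) ρ - tm (corr Q) ρ‖ ≤ 16 * n * ε * (mm ρ * B) := hdiff
            _ ≤ 16 * n * (4 * D ^ (2 * q) / H ^ (2 * q - 2) / (1 + y) ^ 2) * (mm ρ * B) := by gcongr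
            _ = K * (mm ρ / (1 + y) ^ 2) := by
              rw [hK]
              ring
        have h5 : (tm (corr Q) ρ).re - (tm (corr g) ρ).re ≤ ‖tm (corr g) ρ - tm (corr Q) ρ‖ := by
          have := Complex.abs_re_le_norm (tm (corr g) ρ - tm (corr Q) ρ)
          rw [Complex.sub_re] at this
          have := (abs_le.mp this).1
          linarith
        linarith
  -- summation
  have S1r := Complex.reCLM.summable S1
  have S2r := Complex.reCLM.summable S2
  have r1 : (∑' ρ : Zr, tm (corr g) ρ).re = ∑' ρ : Zr, (tm (corr g) ρ).re := Complex.reCLM.map_tsum S1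
  have r2 : (∑' ρ : Zr, tm (corr Q) ρ).re = ∑' ρ : Zr, (tm (corr Q) ρ).re := Complex.reCLM.map_tsum S2
  rw [r1, r2]
  have h6 : ∑' ρ : Zr, ((tm (corr Q) ρ).re - K * (mm ρ / (1 + |(zz ρ).im|) ^ (2 : ℝ))) ≤
      ∑' ρ : Zr, (tm (corr g) ρ).re := (S2r.sub S3).tsum_le_tsum hterm S1r
  have h7 : ∑' ρ : Zr, ((tm (corr Q) ρ).re - K * (mm ρ / (1 + |(zz ρ).im|) ^ (2 : ℝ))) =
      ∑' ρ : Zr, (tm (corr Q) ρ).re - K * ZZ := by
    have := S2r.tsum_sub S3
    simp only [Complex.reCLM_apply] at this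
    rw [this, tsum_mul_left]
    rfl
  rw [h7] at h6
  refine le_trans (le_of_eq ?_) h6
  rw [hK, hB]
  ring

end Pool.Agent.Helper42.WC
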