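import Pool.Agent.Helper42.WB.Main
import Pool.Agent.Helper42.WC.Er

set_option autoImplicit false

/-!
# The filtered function
-/

namespace Pool.Agent.Helper42.WC

open Complex Filter Topology Set MeasureTheory
open scoped ComplexConjugate ContDiff
open Pool.Agent.Helper61.W
open Pool.Agent.Helper42.WB
open Pool.Agent.V11271.LI (Zr mm cfg_zeta zz)

variable {g : ℝ → ℂ}

/-- the bound from below of the multiplier -/
noncomputable def th (σ : ℝ) (q n N : ℕ) : ℝ := (bb σ q n * (20 * q * N)) ^ 2 / 20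

/-- the filtered function lives at high frequencies -/
theorem high (h : TF g) {L σ : ℝ} (hL : 1 ≤ L) (hσ0 : 0 < σ) (hσ1 : σ ≤ 1)
    (hs : ∀ x, x ∉ Icc (-(L / 2)) (L / 2) → g x = 0)
    {q N n : ℕ} (hq : 2 ≤ q) (hN : 1 ≤ N) (hn : 640 * q * L * N ≤ n) :
    (∫ t in {t : ℝ | ¬ 3 * (N : ℝ) < |t|}, den (QQ σ q n g) t ≤
      2 * (16 / 625) ^ n * ∫ t in {t : ℝ | 3 * (N : ℝ) < |t|}, den (QQ σ q n g) t) ∧
    0 < th σ q n N ∧ en g ≤ 2 * 16 ^ n / th σ q n N ^ (2 * (2 * n)) * en (QQ σ q n g) := by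
  have hNr : (1 : ℝ) ≤ N := by exact_mod_cast hN
  have hqr : (2 : ℝ) ≤ q := by exact_mod_cast hq
  have hnNr : (N : ℝ) ≤ n := by
    have : (N : ℝ) ≤ 640 * q * L * N := by
      have h1 : (1 : ℝ) ≤ 640 * q * L := by nlinarith
      nlinarith
    linarith
  have hnr : (1 : ℝ) ≤ n := by linarith
  have hn1 : 1 ≤ n := by exact_mod_cast hnr
  set b : ℝ := bb σ q n with hb
  have hb0 : 0 < b := bb_pos hσ0 hq hn1
  set Q := QQ σ q n g with hQ
  have hqT : TF Q := TF_QQ σ q n h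
  set A : ℝ := 20 * q * N with hA
  have hA0 : 0 < A := by positivity
  have hR := remez h (L := L) (by linarith) hA0 (fun u hu => corr_van hs hu) (n := n) (by rw [hA]; linarith)
  have hden := integrable_den0 h
  have hdenq := integrable_den0 hqT
  have hbA0 : 0 < b * A := by positivity
  have hbA3 : b * A ≤ 3 := by
    rw [hb, hA]
    unfold bb
    rw [div_mul_eq_mul_div, div_le_iff₀ (by positivity)]
    have h1 : σ * (20 * q * N) ≤ 1 * (20 * q * n) := by gcongr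
    have h2 : 0 ≤ (q : ℝ) * n := by positivity
    linarith
  -- low frequencies
  set κ : ℝ := q * (b * (3 * N)) ^ 2 / 3 with hκ
  have hκ0 : 0 < κ := by positivity
  have hlow : ∀ t, ¬ 3 * (N : ℝ) < |t| → den Q t ≤ κ ^ (2 * (2 * n)) * den g t := by
    intro t ht
    push Not at ht
    rw [hQ]
    unfold QQ
    rw [← hb, den_flkm hb0 q h, mul_comm]
    have h1 : wk q (b * t) ≤ κ := by
      refine (wk_le_sq _ _).trans ?_
      rw [hκ, mul_pow, mul_pow, ← sq_abs t]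
      gcongr
    have h2 := den_nonneg g t
    have h3 := wk_nonneg q (b * t)
    gcongr
  -- high frequencies
  set θ : ℝ := (b * A) ^ 2 / 20 with hθ
  have hθ0 : 0 < θ := by positivity
  have hθe : th σ q n N = θ := by
    unfold th
    rw [← hb, ← hA]
  rw [hθe]
  have hhigh : ∀ t, A < |t| → θ ^ (2 * (2 * n)) * den g t ≤ den Q t := by
    intro t ht
    rw [hQ]
    unfold QQ
    rw [← hb, den_flkm hb0 q h, mul_comm]
    have h1 : θ ≤ wk q (b * t) := by
      refine (ww_ge hbA0 hbA3 ?_).trans (wk_ge_ww hq _)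
      rw [abs_mul, abs_of_pos hb0]
      gcongr
    have h2 := den_nonneg g t
    gcongr
  have hκθ : κ ≤ 1 / 5 * θ := by
    have e : κ = 3 * q * (b * N) ^ 2 := by rw [hκ]; ring
    have e2 : 1 / 5 * θ = 4 * q ^ 2 * (b * N) ^ 2 := by rw [hθ, hA]; ring
    rw [e, e2]
    have h1 : 0 ≤ (b * N) ^ 2 := by positivity
    have h2 : 3 * (q : ℝ) ≤ 4 * q ^ 2 := by nlinarith
    exact mul_le_mul_of_nonneg_right h2 h1
  have hmA : MeasurableSet {t : ℝ | A < |t|} := measurableSet_lt measurable_const measurable_abs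
  have hmN : MeasurableSet {t : ℝ | 3 * (N : ℝ) < |t|} := measurableSet_lt measurable_const measurable_abs
  have hmNc : MeasurableSet {t : ℝ | ¬ 3 * (N : ℝ) < |t|} := hmN.compl
  have h1 : θ ^ (2 * (2 * n)) * ∫ t in {t : ℝ | A < |t|}, den g t ≤ ∫ t in {t : ℝ | A < |t|}, den Q t := by
    rw [← integral_const_mul]
    exact setIntegral_mono_on (hden.const_mul _).integrableOn hdenq.integrableOn hmA fun t ht => hhigh t ht
  have h2 : ∫ t in {t : ℝ | A < |t|}, den Q t ≤ ∫ t in {t : ℝ | 3 * (N : ℝ) < |t|}, den Q t := by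
    apply setIntegral_mono_set hdenq.integrableOn (Eventually.of_forall fun t => den_nonneg Q t)
    apply LE.le.eventuallyLE
    intro t ht
    have ht' : A < |t| := ht
    show 3 * (N : ℝ) < |t|
    rw [hA] at ht'
    nlinarith
  have h3 : ∫ t in {t : ℝ | 3 * (N : ℝ) < |t|}, den Q t ≤ ∫ t, den Q t :=
    setIntegral_le_integral hdenq (Eventually.of_forall fun t => den_nonneg Q t)
  have h0 : 0 ≤ ∫ t in {t : ℝ | A < |t|}, den g t := setIntegral_nonneg hmA fun t _ => den_nonneg g t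
  refine ⟨?_, hθ0, ?_⟩
  · have h4 : ∫ t in {t : ℝ | ¬ 3 * (N : ℝ) < |t|}, den Q t ≤ κ ^ (2 * (2 * n)) * ∫ t, den g t := by
      have h5 : ∫ t in {t : ℝ | ¬ 3 * (N : ℝ) < |t|}, den Q t ≤
          ∫ t in {t : ℝ | ¬ 3 * (N : ℝ) < |t|}, κ ^ (2 * (2 * n)) * den g t :=
        setIntegral_mono_on hdenq.integrableOn (hden.const_mul _).integrableOn hmNc fun t ht => hlow t ht
      refine h5.trans ?_
      rw [← integral_const_mul]
      exact setIntegral_le_integral (hden.const_mul _)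
        (Eventually.of_forall fun t => by have := den_nonneg g t; positivity)
    have h6 : κ ^ (2 * (2 * n)) * (2 * 16 ^ n) ≤ 2 * (16 / 625) ^ n * θ ^ (2 * (2 * n)) := by
      have e1 : ((1 : ℝ) / 5) ^ (2 * (2 * n)) * (2 * 16 ^ n) = 2 * (16 / 625) ^ n := by
        have : 2 * (2 * n) = 4 * n := by ring
        rw [this, pow_mul]
        rw [show ((1 : ℝ) / 5) ^ 4 = 1 / 625 by norm_num]
        rw [show (16 : ℝ) / 625 = 1 / 625 * 16 by norm_num, mul_pow]
        ring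
      calc κ ^ (2 * (2 * n)) * (2 * 16 ^ n) ≤ (1 / 5 * θ) ^ (2 * (2 * n)) * (2 * 16 ^ n) := by gcongr
        _ = ((1 / 5 : ℝ) ^ (2 * (2 * n)) * (2 * 16 ^ n)) * θ ^ (2 * (2 * n)) := by
          rw [mul_pow]
          ring
        _ = _ := by rw [e1]
    calc ∫ t in {t : ℝ | ¬ 3 * (N : ℝ) < |t|}, den Q t ≤ κ ^ (2 * (2 * n)) * ∫ t, den g t := h4
      _ ≤ κ ^ (2 * (2 * n)) * (2 * 16 ^ n * ∫ t in {t : ℝ | A < |t|}, den g t) := by gcongr
      _ = κ ^ (2 * (2 * n)) * (2 * 16 ^ n) * ∫ t in {t : ℝ | A < |t|}, den g t := by ring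
      _ ≤ 2 * (16 / 625) ^ n * θ ^ (2 * (2 * n)) * ∫ t in {t : ℝ | A < |t|}, den g t := by gcongr
      _ = 2 * (16 / 625) ^ n * (θ ^ (2 * (2 * n)) * ∫ t in {t : ℝ | A < |t|}, den g t) := by ring
      _ ≤ _ := by
        have := h1.trans h2
        gcongr
  · have hp := Real.pi_pos
    have e1 := en_eq h
    have e2 := en_eq hqT
    have h5 : ∫ t, den g t ≤ 2 * 16 ^ n / θ ^ (2 * (2 * n)) * ∫ t, den Q t := by
      refine hR.trans ?_
      have h6 : ∫ t in {t : ℝ | A < |t|}, den g t ≤ (∫ t, den Q t) / θ ^ (2 * (2 * n)) := by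
        rw [le_div_iff₀ (by positivity), mul_comm]
        exact h1.trans (h2.trans h3)
      calc 2 * 16 ^ n * ∫ t in {t : ℝ | A < |t|}, den g t ≤ 2 * 16 ^ n * ((∫ t, den Q t) / θ ^ (2 * (2 * n))) := by
            gcongr
        _ = _ := by ring
    rw [e1, e2] at h5
    have h7 : 2 * Real.pi * en g ≤ 2 * Real.pi * (2 * 16 ^ n / θ ^ (2 * (2 * n)) * en Q) := by
      linarith
    exact le_of_mul_le_mul_left h7 (by positivity)

lemma ratio_pow (τ θ : ℝ) (n : ℕ) :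
    τ ^ (2 * (2 * n)) * (2 * 16 ^ n / θ ^ (2 * (2 * n))) = 2 * (16 * (τ / θ) ^ 4) ^ n := by
  rw [mul_pow, ← pow_mul, div_pow, show 4 * n = 2 * (2 * n) by ring]
  ring

/-- the polar part of the filtered function is negligible -/
theorem polar_small (h : TF g) {L σ : ℝ} (hL : 1 ≤ L) (hσ0 : 0 < σ) (hσ1 : σ ≤ 1)
    (hs : ∀ x, x ∉ Icc (-(L / 2)) (L / 2) → g x = 0)
    {q N n : ℕ} (hq : 2 ≤ q) (hN : 1 ≤ N) (hn : 640 * q * L * N ≤ n) :
    ‖LT (QQ σ q n g) (1 / 2)‖ * ‖LT (QQ σ q n g) (-(1 / 2))‖ ≤ en (QQ σ q n g) := by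
  obtain ⟨-, hθ0, hen⟩ := high h hL hσ0 hσ1 hs hq hN hn
  have hNr : (1 : ℝ) ≤ N := by exact_mod_cast hN
  have hqr : (2 : ℝ) ≤ q := by exact_mod_cast hq
  have hnL : L ≤ n := by
    have h1 : 1 * L * 1 ≤ 640 * q * L * N := by
      gcongr
      linarith
    linarith
  have hnr : (1 : ℝ) ≤ n := by linarith
  have hn1 : 1 ≤ n := by exact_mod_cast hnr
  set b : ℝ := bb σ q n with hb
  have hb0 : 0 < b := bb_pos hσ0 hq hn1
  have hb1 : q * b ^ 2 ≤ 1 := by
    have h1 : b * (8 * q * n) ≤ 1 := by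
      rw [hb]
      unfold bb
      rw [div_mul_cancel₀ _ (by positivity)]
      exact hσ1
    have h2 : b * q ≤ b * (8 * q * n) := by
      have : (q : ℝ) ≤ 8 * q * n := by nlinarith
      gcongr
    have h3 : b ≤ 1 := bb_le hσ1 hq hn1
    nlinarith
  set θ : ℝ := th σ q n N with hθ
  have hθe : θ = 20 * q ^ 2 * (b * N) ^ 2 := by
    rw [hθ]
    unfold th
    rw [← hb]
    ring
  obtain ⟨s, hs1, hs2, e1, e2⟩ := Sb_half hb0
  set τ : ℝ := q * b ^ 2 / 2 with hτ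
  have hτ0 : 0 ≤ τ := by positivity
  have hsk : ‖(1 - (s : ℂ) ^ (2 * q))‖ ≤ τ := by
    have e3 : (1 - (s : ℂ) ^ (2 * q)) = ((1 - s ^ (2 * q) : ℝ) : ℂ) := by push_cast; ring
    rw [e3, Complex.norm_real, Real.norm_eq_abs]
    have h1 : 1 ≤ s ^ (2 * q) := one_le_pow₀ hs1
    have h2 : s ^ (2 * q) ≤ Real.exp (q * b ^ 2 / 4) := by
      calc s ^ (2 * q) ≤ Real.exp (b ^ 2 / 8) ^ (2 * q) := by gcongr
        _ = Real.exp (q * b ^ 2 / 4) := by
          rw [← Real.exp_nat_mul]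
          congr 1
          push_cast
          ring
    have h3 : Real.exp (q * b ^ 2 / 4) ≤ 1 + q * b ^ 2 / 2 := by
      have h4 : 0 ≤ q * b ^ 2 / 4 := by positivity
      have h5 : q * b ^ 2 / 4 ≤ 1 := by linarith
      have h6 := Real.abs_exp_sub_one_le (x := q * b ^ 2 / 4) (by rw [abs_of_nonneg h4]; exact h5)
      rw [abs_of_nonneg h4] at h6
      have := (abs_le.mp h6).2
      linarith
    rw [abs_le]
    constructor <;> linarith
  have hLTg : ∀ z : ℂ, |z.re| ≤ 1 / 2 → ‖LT g z‖ ^ 2 ≤ L * Real.exp (L / 2) * en g := by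
    intro z hz
    refine (LT_sq_le h (by linarith) hs hz).trans (le_of_eq ?_)
    ring
  have hz1 : |(1 / 2 : ℂ).re| ≤ 1 / 2 := by norm_num
  have hz2 : |(-(1 / 2) : ℂ).re| ≤ 1 / 2 := by norm_num
  have a1 := hLTg _ hz1
  have a2 := hLTg _ hz2
  have f1 : ‖LT (QQ σ q n g) (1 / 2)‖ ≤ τ ^ (2 * n) * ‖LT g (1 / 2)‖ := by
    unfold QQ
    rw [← hb, LT_flkm b _ h, e1, norm_mul, norm_pow]
    gcongr
  have f2 : ‖LT (QQ σ q n g) (-(1 / 2))‖ ≤ τ ^ (2 * n) * ‖LT g (-(1 / 2))‖ := by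
    unfold QQ
    rw [← hb, LT_flkm b _ h, e2, norm_mul, norm_pow]
    gcongr
  have f3 : ‖LT g (1 / 2)‖ * ‖LT g (-(1 / 2))‖ ≤ L * Real.exp (L / 2) * en g := by
    nlinarith [sq_nonneg (‖LT g (1 / 2)‖ - ‖LT g (-(1 / 2))‖)]
  have henQ := en_nonneg (QQ σ q n g)
  have hratio : τ / θ ≤ 1 / 80 := by
    rw [div_le_iff₀ hθ0, hτ, hθe]
    have h1 : 0 ≤ b ^ 2 := by positivity
    have h2 : (1 : ℝ) ≤ N ^ 2 := by nlinarith
    have h3 : (q : ℝ) * 1 ≤ q * q := by nlinarith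
    have h4 : (q : ℝ) * 1 ≤ q ^ 2 / 2 * (N ^ 2) := by nlinarith
    calc q * b ^ 2 / 2 = (q * 1) * (b ^ 2 / 2) := by ring
      _ ≤ (q ^ 2 / 2 * N ^ 2) * (b ^ 2 / 2) := by gcongr
      _ = 1 / 80 * (20 * q ^ 2 * (b * N) ^ 2) := by ring
  have hratio0 : 0 ≤ τ / θ := by positivity
  have hfac : τ ^ (2 * (2 * n)) * (2 * 16 ^ n / θ ^ (2 * (2 * n))) * (L * Real.exp (L / 2)) ≤ 1 := by
    rw [ratio_pow τ θ n]
    have g2 : 16 * (τ / θ) ^ 4 ≤ Real.exp (-3) := by
      have g3 : (τ / θ) ^ 4 ≤ (1 / 80) ^ 4 := by gcongr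
      have g4 : (1 / 81 : ℝ) ≤ Real.exp (-3) := by
        rw [Real.exp_neg, one_div]
        gcongr
        have g5 : Real.exp 3 = Real.exp 1 ^ 3 := by rw [← Real.exp_nat_mul]; norm_num
        rw [g5]
        have g6 := Real.exp_one_lt_d9
        have g7 := Real.exp_pos 1
        have g8 : Real.exp 1 ≤ 3 := by linarith
        calc Real.exp 1 ^ 3 ≤ 3 ^ 3 := by gcongr
          _ ≤ 81 := by norm_num
      calc 16 * (τ / θ) ^ 4 ≤ 16 * (1 / 80) ^ 4 := by gcongr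
        _ ≤ 1 / 81 := by norm_num
        _ ≤ _ := g4
    have g9 : (16 * (τ / θ) ^ 4) ^ n ≤ Real.exp (-3 * n) := by
      calc (16 * (τ / θ) ^ 4) ^ n ≤ Real.exp (-3) ^ n := by gcongr
        _ = Real.exp (-3 * n) := by
          rw [← Real.exp_nat_mul]
          congr 1
          ring
    have g10 : L * Real.exp (L / 2) ≤ Real.exp (3 / 2 * n) := by
      have g11 : L ≤ Real.exp L := by have := Real.add_one_le_exp L; linarith
      calc L * Real.exp (L / 2) ≤ Real.exp L * Real.exp (L / 2) := by gcongr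
        _ = Real.exp (3 / 2 * L) := by rw [← Real.exp_add]; congr 1; ring
        _ ≤ Real.exp (3 / 2 * n) := by
          apply Real.exp_le_exp.mpr
          linarith
    have g12 : (2 : ℝ) ≤ Real.exp 1 := by have := Real.add_one_le_exp 1; linarith
    calc 2 * (16 * (τ / θ) ^ 4) ^ n * (L * Real.exp (L / 2)) ≤
          Real.exp 1 * Real.exp (-3 * n) * Real.exp (3 / 2 * n) := by gcongr
      _ = Real.exp (1 + -3 * n + 3 / 2 * n) := by rw [Real.exp_add, Real.exp_add]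
      _ ≤ 1 := by
        rw [Real.exp_le_one_iff]
        linarith
  calc ‖LT (QQ σ q n g) (1 / 2)‖ * ‖LT (QQ σ q n g) (-(1 / 2))‖ ≤
        (τ ^ (2 * n) * ‖LT g (1 / 2)‖) * (τ ^ (2 * n) * ‖LT g (-(1 / 2))‖) := by gcongr
    _ = τ ^ (2 * (2 * n)) * (‖LT g (1 / 2)‖ * ‖LT g (-(1 / 2))‖) := by
      rw [two_mul (2 * n), pow_add]
      ring
    _ ≤ τ ^ (2 * (2 * n)) * (L * Real.exp (L / 2) * en g) := by gcongr
    _ ≤ τ ^ (2 * (2 * n)) * (L * Real.exp (L / 2) * (2 * 16 ^ n / θ ^ (2 * (2 * n)) * en (QQ σ q n g))) := by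
      gcongr
    _ = (τ ^ (2 * (2 * n)) * (2 * 16 ^ n / θ ^ (2 * (2 * n))) * (L * Real.exp (L / 2))) * en (QQ σ q n g) := by
      ring
    _ ≤ 1 * en (QQ σ q n g) := by gcongr
    _ = _ := one_mul _

end Pool.Agent.Helper42.WC
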