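import Pool.Agent.Helper42.WC.High

set_option autoImplicit false

/-!
# Zeros beyond `exp ((1 + ε) sqrt X)` are not seen by Weil's form of level `X`
-/

namespace Pool.Agent.Helper42.WC

open Complex Filter Topology Set MeasureTheory
open scoped ComplexConjugate ContDiff
open Pool.Agent.Helper61.W
open Pool.Agent.Helper42.WB
open Pool.Agent.V11271.LI (Zr mm cfg_zeta zz)

variable {g : ℝ → ℂ}

/-- positivity, with explicit parameters -/
theorem core {ε C cm : ℝ} (hε : 0 ≤ ε) (hC : 0 ≤ C) (hcm : 0 ≤ cm)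
    (hψ : ∀ x : ℝ, 0 ≤ x → Chebyshev.psi x ≤ (1 + ε) * x + C)
    (hm : ∀ ℓ : ℝ, 0 ≤ ℓ → ∀ y : ℝ, y ≤ ℓ →
      ∑ n ∈ Finset.range (⌊Real.exp y⌋₊ + 1), ArithmeticFunction.vonMangoldt n / n ≤ cm * (1 + ℓ))
    (h : TF g) (h0 : g ≠ 0) {L σ : ℝ} (hL : 1 ≤ L) (hσ0 : 0 < σ) (hσ1 : σ ≤ 1)
    (hs : ∀ x, x ∉ Icc (-(L / 2)) (L / 2) → g x = 0)
    {q N n : ℕ} (hq : 2 ≤ q) (hN : 1 ≤ N) (hn : 640 * q * L * N ≤ n)
    (hM : (1 + ε) * Real.exp ((L + σ) / 2) + cm * (1 + (L + σ)) + C + 12 ≤ Real.log (N + 1))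
    {H : ℝ} (hH1 : 1 ≤ H) (hHn : 8 * n * (16 * q * n / σ) ^ (2 * q) ≤ H ^ (2 * q))
    (hH2 : 2 * (16 * n * (4 * (16 * q * n / σ) ^ (2 * q)) * ((L + 1) * Real.exp ((L + 1) / 2)) * ZZ) ≤
      H ^ (2 * q - 2))
    (hz : ∀ ρ : Zr, |(ρ : ℂ).im| < H → (ρ : ℂ).re ≠ 1 / 2 →
      LT g ((ρ : ℂ) - 1 / 2) = 0 ∨ LT g (1 / 2 - conj (ρ : ℂ)) = 0) :
    0 < (∑' ρ : Zr, tm (corr g) ρ).re := by
  have hNr : (1 : ℝ) ≤ N := by exact_mod_cast hN
  have hqr : (2 : ℝ) ≤ q := by exact_mod_cast hq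
  have hnNr : (N : ℝ) ≤ n := by
    have : (N : ℝ) ≤ 640 * q * L * N := by
      have h1 : (1 : ℝ) ≤ 640 * q * L := by nlinarith
      nlinarith
    linarith
  have hnr : (1 : ℝ) ≤ n := by linarith
  have hn1 : 1 ≤ n := by exact_mod_cast hnr
  have hnN : N ≤ n := by exact_mod_cast hnNr
  have hcmp := compare h (by linarith) hσ0 hσ1 hs hq hn1 hH1 hHn hz
  obtain ⟨hlh, hθ0, hK⟩ := high h hL hσ0 hσ1 hs hq hN hn
  have hpol := polar_small h hL hσ0 hσ1 hs hq hN hn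
  set Q := QQ σ q n g with hQ
  have hqT : TF Q := TF_QQ σ q n h
  have hqs : ∀ x, x ∉ Icc (-((L + σ) / 2)) ((L + σ) / 2) → Q x = 0 := QQ_supp hσ0 hs hq hn1
  set K : ℝ := 2 * 16 ^ n / th σ q n N ^ (2 * (2 * n)) with hKd
  have hK0 : 0 < K := by positivity
  have henq : 0 < en Q := by
    have h1 := en_pos h h0
    have h2 : 0 < K * en Q := lt_of_lt_of_le h1 hK
    by_contra h3
    push Not at h3
    have h4 : en Q = 0 := le_antisymm h3 (en_nonneg Q)
    rw [h4, mul_zero] at h2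
    exact lt_irrefl _ h2
  have hlow := weil_lower hψ hm hqT (c := (L + σ) / 2) (by linarith) hqs N
  rw [show 2 * ((L + σ) / 2) = L + σ by ring] at hlow
  set M : ℝ := (1 + ε) * Real.exp ((L + σ) / 2) + cm * (1 + (L + σ)) + C with hMd
  have hM0 : 0 ≤ M := by
    rw [hMd]
    have := Real.exp_pos ((L + σ) / 2)
    positivity
  -- the archimedean integral
  have hdenq := integrable_den0 hqT
  have hmN : MeasurableSet {t : ℝ | 3 * (N : ℝ) < |t|} := measurableSet_lt measurable_const measurable_abs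
  have hpi := Real.pi_pos
  have hlog0 : 0 ≤ Real.log (N + 1) - 1 := by linarith
  have hcontS : Continuous fun t => ∑ n ∈ Finset.range N, aw n t :=
    continuous_finsetSum _ fun n _ => aw_cont n
  have hSint : Integrable (fun t => den Q t * ∑ n ∈ Finset.range N, aw n t) := by
    refine integrable_den1 hqT hcontS (K := N) fun y => ?_
    rw [abs_of_nonneg (Finset.sum_nonneg fun n _ => aw_nonneg n y)]
    refine (Finset.sum_le_sum fun n _ => aw_le_one n y).trans ?_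
    simp
  have hA1 : (Real.log (N + 1) - 1) * ∫ t in {t : ℝ | 3 * (N : ℝ) < |t|}, den Q t ≤
      ∫ t, den Q t * ∑ n ∈ Finset.range N, aw n t := by
    rw [← integral_const_mul]
    refine le_trans ?_ (setIntegral_le_integral (s := {t : ℝ | 3 * (N : ℝ) < |t|}) hSint
      (Eventually.of_forall fun t => mul_nonneg (den_nonneg Q t) (Finset.sum_nonneg fun n _ => aw_nonneg n t)))
    refine setIntegral_mono_on (hdenq.const_mul _).integrableOn hSint.integrableOn hmN fun t ht => ?_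
    have ht' : 3 * (N : ℝ) < |t| := ht
    rw [mul_comm]
    exact mul_le_mul_of_nonneg_left (aw_sum_ge hN ht'.le) (den_nonneg Q t)
  have hsplit : ∫ t, den Q t = (∫ t in {t : ℝ | 3 * (N : ℝ) < |t|}, den Q t) +
      ∫ t in {t : ℝ | ¬ 3 * (N : ℝ) < |t|}, den Q t := (integral_add_compl hmN hdenq).symm
  rw [en_eq hqT] at hsplit
  set δ : ℝ := 2 * (16 / 625) ^ n with hδ
  have hδ0 : 0 ≤ δ := by positivity
  have hhi0 : 0 ≤ ∫ t in {t : ℝ | 3 * (N : ℝ) < |t|}, den Q t := setIntegral_nonneg hmN fun t _ => den_nonneg Q t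
  have hhile : ∫ t in {t : ℝ | 3 * (N : ℝ) < |t|}, den Q t ≤ 2 * Real.pi * en Q := by
    rw [← en_eq hqT]
    exact setIntegral_le_integral hdenq (Eventually.of_forall fun t => den_nonneg Q t)
  have hhalf : (1 - δ) * (2 * Real.pi * en Q) ≤ ∫ t in {t : ℝ | 3 * (N : ℝ) < |t|}, den Q t := by
    nlinarith
  have hA2 : (Real.log (N + 1) - 1) * ((1 - δ) * (2 * Real.pi * en Q)) ≤
      ∫ t, den Q t * ∑ n ∈ Finset.range N, aw n t :=
    (mul_le_mul_of_nonneg_left hhalf hlog0).trans hA1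
  have hA3 : (Real.log (N + 1) - 1) * (1 - δ) * en Q ≤
      1 / (2 * Real.pi) * ∫ t, den Q t * ∑ n ∈ Finset.range N, aw n t := by
    calc (Real.log (N + 1) - 1) * (1 - δ) * en Q =
          1 / (2 * Real.pi) * ((Real.log (N + 1) - 1) * ((1 - δ) * (2 * Real.pi * en Q))) := by
          field_simp
      _ ≤ _ := by gcongr
  have hδlog : (Real.log (N + 1) - 1) * δ ≤ 1 := by
    have h1 : Real.log (N + 1) ≤ N := by
      have := Real.log_le_sub_one_of_pos (show (0 : ℝ) < N + 1 by positivity)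
      linarith
    have h2 : Real.log (N + 1) - 1 ≤ n := by linarith
    have h3 : (n : ℝ) ≤ 2 ^ n := by exact_mod_cast (Nat.lt_two_pow_self (n := n)).le
    have h4 : (2 : ℝ) ^ n * (16 / 625) ^ n ≤ 1 / 2 := by
      rw [← mul_pow]
      calc (2 * (16 / 625) : ℝ) ^ n ≤ (2 * (16 / 625)) ^ 1 := pow_le_pow_of_le_one (by norm_num) (by norm_num) hn1
        _ ≤ 1 / 2 := by norm_num
    have h5 : 0 ≤ ((16 : ℝ) / 625) ^ n := by positivity
    calc (Real.log (N + 1) - 1) * δ ≤ 2 ^ n * δ := by gcongr; linarith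
      _ = 2 * (2 ^ n * (16 / 625) ^ n) := by rw [hδ]; ring
      _ ≤ 1 := by linarith
  have hA4 : (Real.log (N + 1) - 2) * en Q ≤
      1 / (2 * Real.pi) * ∫ t, den Q t * ∑ n ∈ Finset.range N, aw n t := by
    refine le_trans ?_ hA3
    apply mul_le_mul_of_nonneg_right _ henq.le
    linarith
  have hW : en Q ≤ (∑' ρ : Zr, tm (corr Q) ρ).re := by
    refine le_trans ?_ hlow
    have h1 : (M + 10) * en Q ≤ (Real.log (N + 1) - 2) * en Q :=
      mul_le_mul_of_nonneg_right (by linarith) henq.le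
    linarith
  -- the error
  have herr : 16 * n * (4 * (16 * q * n / σ) ^ (2 * q) / H ^ (2 * q - 2)) *
      ((L + 1) * Real.exp ((L + 1) / 2)) * ZZ ≤ 1 / 2 := by
    have hH2' : 0 < H ^ (2 * q - 2) := by positivity
    have e : 16 * n * (4 * (16 * q * n / σ) ^ (2 * q) / H ^ (2 * q - 2)) *
        ((L + 1) * Real.exp ((L + 1) / 2)) * ZZ =
        (16 * n * (4 * (16 * q * n / σ) ^ (2 * q)) * ((L + 1) * Real.exp ((L + 1) / 2)) * ZZ) /
          H ^ (2 * q - 2) := by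
      ring
    rw [e, div_le_iff₀ hH2']
    linarith
  have h5 := mul_le_mul_of_nonneg_right herr henq.le
  linarith

lemma ev1 {a b c : ℝ} (hc : 0 < c) : ∀ᶠ y : ℝ in atTop, a * y + b ≤ c * Real.exp y := by
  have h1 := Real.tendsto_exp_div_pow_atTop 1
  have h2 := h1.eventually_ge_atTop ((|a| + |b|) / c)
  filter_upwards [h2, eventually_ge_atTop (1 : ℝ)] with y hy hy1
  rw [pow_one, le_div_iff₀ (by linarith), div_mul_eq_mul_div, div_le_iff₀ hc] at hy
  have h3 : a * y ≤ |a| * y := by gcongr; exact le_abs_self a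
  have h4 : b ≤ |b| * y := by
    have := le_abs_self b
    nlinarith [abs_nonneg b]
  linarith

lemma ev2 (K : ℝ) (k : ℕ) : ∀ᶠ x : ℝ in atTop, K * x ^ k ≤ Real.exp x := by
  have h1 := Real.tendsto_exp_div_pow_atTop k
  filter_upwards [h1.eventually_ge_atTop K, eventually_gt_atTop (0 : ℝ)] with x hx hx0
  rwa [le_div_iff₀ (by positivity)] at hx

/-- **Zeros beyond `exp ((1 + ε) e^(L/2))` are not seen**, `ε ≤ 1` -/
theorem sharp1 {ε : ℝ} (hε : 0 < ε) (hε1 : ε ≤ 1) : ∃ L0 : ℝ, ∀ L : ℝ, L0 ≤ L → ∀ g : ℝ → ℂ, TF g →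
    (∀ x, x ∉ Icc (-(L / 2)) (L / 2) → g x = 0) → g ≠ 0 →
    (∀ ρ : Zr, |(ρ : ℂ).im| < Real.exp ((1 + ε) * Real.exp (L / 2)) → (ρ : ℂ).re ≠ 1 / 2 →
      LT g ((ρ : ℂ) - 1 / 2) = 0 ∨ LT g (1 / 2 - conj (ρ : ℂ)) = 0) →
    0 < (∑' ρ : Zr, tm (corr g) ρ).re := by
  set σ : ℝ := ε / 16 with hσ
  have hσ0 : 0 < σ := by positivity
  have hσ1 : σ ≤ 1 := by rw [hσ]; linarith
  obtain ⟨C, hC, hψ⟩ := psi_pnt hσ0
  obtain ⟨cm, hcm, hm⟩ := vm_div_le
  have hZ := ZZ_nonneg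
  set q : ℕ := ⌈8 / ε⌉₊ with hq
  have hq1 : 8 / ε ≤ q := Nat.le_ceil _
  have hq2 : 8 ≤ q * ε := by rwa [div_le_iff₀ hε] at hq1
  have hq8 : (8 : ℝ) ≤ q := by nlinarith
  have hqn : 2 ≤ q := by
    have : 8 ≤ q := by exact_mod_cast hq8
    omega
  set K : ℝ := 128 * (16 * q / σ) ^ (2 * q) * (2 * (1282 * q)) ^ (2 * q + 1) * (2 * 2) * (ZZ + 1) with hK
  have hev : ∀ᶠ y : ℝ in atTop, (2 * cm * y + (cm * 2 + C + 12) ≤ σ * Real.exp y) ∧
      (K * (Real.exp y) ^ (2 * q + 3) ≤ Real.exp (Real.exp y)) ∧ 1 / 2 ≤ y :=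
    (ev1 hσ0).and ((Real.tendsto_exp_atTop.eventually (ev2 K (2 * q + 3))).and (eventually_ge_atTop _))
  obtain ⟨y0, hy0⟩ := eventually_atTop.mp hev
  refine ⟨2 * y0, fun L hL g h hs h0 hz => ?_⟩
  obtain ⟨E1, E2, E3⟩ := hy0 (L / 2) (by linarith)
  have hL1 : 1 ≤ L := by linarith
  obtain ⟨x, hx⟩ : ∃ x, x = Real.exp (L / 2) := ⟨_, rfl⟩
  rw [← hx] at hz E1 E2
  have hxL : L / 2 + 1 ≤ x := by rw [hx]; exact Real.add_one_le_exp _
  have hx1 : 1 ≤ x := by linarith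
  have hhalf : Real.exp ((L + 1) / 2) ≤ 2 * x := by
    have e : Real.exp ((L + 1) / 2) = Real.exp (1 / 2) * x := by
      rw [hx, ← Real.exp_add]
      congr 1
      ring
    rw [e]
    have h1 : Real.exp (1 / 2) ≤ 2 := by
      have h1 : Real.exp (1 / 2) ^ 2 = Real.exp 1 := by
        rw [← Real.exp_nat_mul]; norm_num
      have h2 := Real.exp_one_lt_d9
      nlinarith [Real.exp_pos (1 / 2)]
    gcongr
  have hsig : Real.exp ((L + σ) / 2) ≤ (1 + σ) * x := by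
    have e : Real.exp ((L + σ) / 2) = Real.exp (σ / 2) * x := by
      rw [hx, ← Real.exp_add]
      congr 1
      ring
    rw [e]
    have h1 : Real.exp (σ / 2) ≤ 1 + σ := by
      have h4 : 0 ≤ σ / 2 := by positivity
      have h6 := Real.abs_exp_sub_one_le (x := σ / 2) (by rw [abs_of_nonneg h4]; linarith)
      rw [abs_of_nonneg h4] at h6
      have := (abs_le.mp h6).2
      linarith
    gcongr
  -- the number of terms
  set N : ℕ := ⌈Real.exp ((1 + ε / 4) * x)⌉₊ with hN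
  have hN1 : Real.exp ((1 + ε / 4) * x) ≤ N := Nat.le_ceil _
  have hN2 : (N : ℝ) ≤ 2 * Real.exp ((1 + ε / 4) * x) := by
    have h1 := (Nat.ceil_lt_add_one (Real.exp_pos ((1 + ε / 4) * x)).le).le
    have h2 : 1 ≤ Real.exp ((1 + ε / 4) * x) := Real.one_le_exp (by positivity)
    rw [← hN] at h1
    linarith
  have hNpos : 1 ≤ N := Nat.one_le_ceil_iff.mpr (Real.exp_pos _)
  have hNr : (1 : ℝ) ≤ N := by exact_mod_cast hNpos
  set n : ℕ := N * ⌈640 * q * L⌉₊ with hn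
  have hce : 640 * q * L ≤ ⌈640 * q * L⌉₊ := Nat.le_ceil _
  have hn640 : 640 * q * L * N ≤ n := by
    rw [hn]
    push_cast
    nlinarith
  have hnle : (n : ℝ) ≤ 2 * (1282 * q) * x * Real.exp ((1 + ε / 4) * x) := by
    have h1 := (Nat.ceil_lt_add_one (show 0 ≤ 640 * q * L by positivity)).le
    have h2 : (⌈640 * q * L⌉₊ : ℝ) ≤ 1282 * q * x := by
      have h3 : 640 * q * L ≤ 640 * q * (2 * x) := by gcongr; linarith
      have h4 : (1 : ℝ) ≤ q * x := by nlinarith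
      linarith
    calc (n : ℝ) = N * (⌈640 * q * L⌉₊ : ℝ) := by rw [hn]; push_cast; ring
      _ ≤ (2 * Real.exp ((1 + ε / 4) * x)) * (1282 * q * x) := by gcongr
      _ = _ := by ring
  have hM : (1 + σ) * Real.exp ((L + σ) / 2) + cm * (1 + (L + σ)) + C + 12 ≤ Real.log (N + 1) := by
    have h2 : (1 + ε / 4) * x ≤ Real.log (N + 1) := by
      rw [Real.le_log_iff_exp_le (by positivity)]
      linarith
    refine le_trans ?_ h2
    have h3 : (1 + σ) * Real.exp ((L + σ) / 2) ≤ (1 + σ) * ((1 + σ) * x) := by gcongr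
    have h4' : (1 + σ) * (1 + σ) ≤ 1 + 3 * σ := by nlinarith
    have h4 : (1 + σ) * ((1 + σ) * x) ≤ (1 + 3 * σ) * x := by
      rw [← mul_assoc]
      exact mul_le_mul_of_nonneg_right h4' (by linarith)
    have h5 : cm * (1 + (L + σ)) ≤ cm * (2 + L) := mul_le_mul_of_nonneg_left (by linarith) hcm.le
    have h6 : (1 + ε / 4) * x = (1 + 3 * σ) * x + σ * x := by rw [hσ]; ring
    rw [h6]
    linarith
  -- the height
  set H : ℝ := Real.exp ((1 + ε) * x) with hH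
  have hH1 : 1 ≤ H := Real.one_le_exp (by positivity)
  have hnpos : (1 : ℝ) ≤ n := by
    have h1 : (1 : ℝ) ≤ 640 * q * L * N := by
      have h2 : (1 : ℝ) ≤ 640 * q * L := by nlinarith
      nlinarith
    linarith
  have hmain : 128 * n * (16 * q * n / σ) ^ (2 * q) * ((L + 1) * Real.exp ((L + 1) / 2)) * (ZZ + 1) ≤
      H ^ (2 * q - 2) := by
    have e1 : 128 * n * (16 * q * n / σ) ^ (2 * q) * ((L + 1) * Real.exp ((L + 1) / 2)) * (ZZ + 1) =
        128 * (16 * q / σ) ^ (2 * q) * (n : ℝ) ^ (2 * q + 1) * ((L + 1) * Real.exp ((L + 1) / 2)) * (ZZ + 1) := by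
      rw [show 16 * (q : ℝ) * n / σ = (16 * q / σ) * n by ring, mul_pow, pow_succ (n : ℝ)]
      ring
    rw [e1]
    have h2 : (L + 1) * Real.exp ((L + 1) / 2) ≤ (2 * x) * (2 * x) := by
      gcongr
      linarith
    have h3 : (n : ℝ) ^ (2 * q + 1) ≤ (2 * (1282 * q)) ^ (2 * q + 1) * x ^ (2 * q + 1) *
        Real.exp ((2 * q + 1) * ((1 + ε / 4) * x)) := by
      calc (n : ℝ) ^ (2 * q + 1) ≤ (2 * (1282 * q) * x * Real.exp ((1 + ε / 4) * x)) ^ (2 * q + 1) := by gcongr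
        _ = _ := by
          rw [mul_pow, mul_pow, ← Real.exp_nat_mul]
          congr 2
          push_cast
          ring
    have h4 : H ^ (2 * q - 2) = Real.exp ((2 * q - 2) * ((1 + ε) * x)) := by
      rw [hH, ← Real.exp_nat_mul]
      congr 1
      have : ((2 * q - 2 : ℕ) : ℝ) = 2 * q - 2 := by
        rw [Nat.cast_sub (by omega)]
        push_cast
        ring
      rw [this]
    have h5 : Real.exp ((2 * q + 1) * ((1 + ε / 4) * x)) * Real.exp x ≤ H ^ (2 * q - 2) := by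
      rw [h4, ← Real.exp_add]
      apply Real.exp_le_exp.mpr
      have h6 : (2 * q - 2) * ((1 + ε) * x) - ((2 * q + 1) * ((1 + ε / 4) * x) + x) =
          (3 / 2 * (q * ε) - 9 / 4 * ε - 4) * x := by ring
      have h7 : 0 ≤ (3 / 2 * (q * ε) - 9 / 4 * ε - 4) * x := by
        apply mul_nonneg _ (by linarith)
        linarith
      linarith
    calc 128 * (16 * q / σ) ^ (2 * q) * (n : ℝ) ^ (2 * q + 1) * ((L + 1) * Real.exp ((L + 1) / 2)) * (ZZ + 1) ≤
          128 * (16 * q / σ) ^ (2 * q) * ((2 * (1282 * q)) ^ (2 * q + 1) * x ^ (2 * q + 1) *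
            Real.exp ((2 * q + 1) * ((1 + ε / 4) * x))) * ((2 * x) * (2 * x)) * (ZZ + 1) := by gcongr
      _ = K * x ^ (2 * q + 3) * Real.exp ((2 * q + 1) * ((1 + ε / 4) * x)) := by
        rw [hK, show 2 * q + 3 = (2 * q + 1) + 2 by ring, pow_add x (2 * q + 1) 2]
        ring
      _ ≤ Real.exp x * Real.exp ((2 * q + 1) * ((1 + ε / 4) * x)) := by gcongr
      _ = Real.exp ((2 * q + 1) * ((1 + ε / 4) * x)) * Real.exp x := mul_comm _ _
      _ ≤ _ := h5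
  have hT1 : 1 ≤ (L + 1) * Real.exp ((L + 1) / 2) := by
    have := Real.one_le_exp (show 0 ≤ (L + 1) / 2 by linarith)
    nlinarith
  have hHb : 8 * n * (16 * q * n / σ) ^ (2 * q) ≤ H ^ (2 * q) := by
    have h1 : H ^ (2 * q - 2) ≤ H ^ (2 * q) := pow_le_pow_right₀ hH1 (by omega)
    refine le_trans ?_ (hmain.trans h1)
    have h2 : 0 ≤ (n : ℝ) * (16 * q * n / σ) ^ (2 * q) := by positivity
    calc 8 * n * (16 * q * n / σ) ^ (2 * q) ≤ 128 * n * (16 * q * n / σ) ^ (2 * q) * 1 * 1 := by linarith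
      _ ≤ _ := by
        gcongr
        linarith
  have hHc : 2 * (16 * n * (4 * (16 * q * n / σ) ^ (2 * q)) * ((L + 1) * Real.exp ((L + 1) / 2)) * ZZ) ≤
      H ^ (2 * q - 2) := by
    refine le_trans ?_ hmain
    calc 2 * (16 * n * (4 * (16 * q * n / σ) ^ (2 * q)) * ((L + 1) * Real.exp ((L + 1) / 2)) * ZZ) =
          128 * n * (16 * q * n / σ) ^ (2 * q) * ((L + 1) * Real.exp ((L + 1) / 2)) * ZZ := by ring
      _ ≤ _ := by
        gcongr
        linarith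
  exact core hσ0.le hC hcm.le hψ hm h h0 hL1 hσ0 hσ1 hs hqn hNpos hn640 hM hH1 hHb hHc hz

/-- **Zeros beyond `exp ((1 + ε) e^(L/2))` are not seen.** -/
theorem partB1 {ε : ℝ} (hε : 0 < ε) : ∃ L0 : ℝ, ∀ L : ℝ, L0 ≤ L → ∀ g : ℝ → ℂ, TF g →
    (∀ x, x ∉ Icc (-(L / 2)) (L / 2) → g x = 0) → g ≠ 0 →
    (∀ ρ : Zr, |(ρ : ℂ).im| < Real.exp ((1 + ε) * Real.exp (L / 2)) → (ρ : ℂ).re ≠ 1 / 2 →
      LT g ((ρ : ℂ) - 1 / 2) = 0 ∨ LT g (1 / 2 - conj (ρ : ℂ)) = 0) →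
    0 < (∑' ρ : Zr, tm (corr g) ρ).re := by
  obtain ⟨L0, hL0⟩ := sharp1 (ε := min ε 1) (by positivity) (min_le_right _ _)
  refine ⟨L0, fun L hL g h hs h0 hz => hL0 L hL g h hs h0 fun ρ hρ => hz ρ (lt_of_lt_of_le hρ ?_)⟩
  apply Real.exp_le_exp.mpr
  have := min_le_left ε 1
  gcongr

end Pool.Agent.Helper42.WC
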