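import Pool.Agent.Helper42.WB.Ex
import Pool.Agent.Helper42.WC.Ch

set_option autoImplicit false

/-!
# The prime side by a Schur test
-/

namespace Pool.Agent.Helper42.WC

open Complex Filter Topology Set MeasureTheory
open scoped ComplexConjugate ContDiff
open Pool.Agent.Helper61.W
open Pool.Agent.Helper42.WB
open Pool.Agent.V11271.LI (Zr mm cfg_zeta zz)

variable {g : ℝ → ℂ}

/-- the weight -/
noncomputable def pw (x : ℝ) : ℝ := Real.exp (x / 2) + Real.exp (-(x / 2))

lemma pw_pos (x : ℝ) : 0 < pw x := by unfold pw; positivity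

lemma pw_cont : Continuous pw := by unfold pw; fun_prop

lemma pw_neg (x : ℝ) : pw (-x) = pw x := by
  unfold pw
  rw [neg_div, neg_neg, add_comm]

/-- half of the kernel -/
noncomputable def Gh (c u y : ℝ) : ℝ := if -c ≤ y - u then pw (y - u) else 0

lemma Gh_nonneg (c u y : ℝ) : 0 ≤ Gh c u y := by
  unfold Gh
  split_ifs
  · exact (pw_pos _).le
  · exact le_rfl

lemma Gh_eq (c u : ℝ) : (fun y => Gh c u y) = {y : ℝ | -c ≤ y - u}.indicator (fun y => pw (y - u)) := by
  funext y
  unfold Gh
  rw [indicator_apply]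
  rfl

lemma sq_int (h : TF g) {k : ℝ → ℝ} (hk : Continuous k) : Integrable (fun y => ‖g y‖ ^ 2 / pw y * k y) := by
  have hcont := h.cont
  have hp := pw_cont
  apply Continuous.integrable_of_hasCompactSupport
  · refine Continuous.mul (Continuous.div (by fun_prop) hp fun y => (pw_pos y).ne') hk
  · have h1 := h.supp.norm
    have h2 : HasCompactSupport (fun y => ‖g y‖ ^ 2) := h1.comp_left (g := fun y : ℝ => y ^ 2) (by simp)
    apply h2.mono
    intro y hy
    simp only [Function.mem_support, ne_eq] at hy ⊢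
    intro h3
    apply hy
    rw [h3]
    simp

lemma Gh_int (h : TF g) (c u : ℝ) : Integrable (fun y => ‖g y‖ ^ 2 / pw y * Gh c u y) := by
  have hp := pw_cont
  have h1 := sq_int h (k := fun y => pw (y - u)) (by fun_prop)
  have hm : MeasurableSet {y : ℝ | -c ≤ y - u} := measurableSet_le measurable_const (by fun_prop)
  refine (h1.indicator hm).congr (Eventually.of_forall fun y => ?_)
  unfold Gh
  beta_reduce
  by_cases hy : -c ≤ y - u
  · rw [indicator_of_mem (show y ∈ {y : ℝ | -c ≤ y - u} from hy), if_pos hy]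
  · rw [indicator_of_notMem (show y ∉ {y : ℝ | -c ≤ y - u} from hy), if_neg hy, mul_zero]

lemma Gh_int' (h : TF g) (c u : ℝ) : Integrable (fun y => ‖g y‖ ^ 2 / pw y * Gh c u (-y)) := by
  have hp := pw_cont
  have h1 := sq_int h (k := fun y => pw (-y - u)) (by fun_prop)
  have hm : MeasurableSet {y : ℝ | -c ≤ -y - u} := measurableSet_le measurable_const (by fun_prop)
  refine (h1.indicator hm).congr (Eventually.of_forall fun y => ?_)
  unfold Gh
  beta_reduce
  by_cases hy : -c ≤ -y - u
  · rw [indicator_of_mem (show y ∈ {y : ℝ | -c ≤ -y - u} from hy), if_pos hy]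
  · rw [indicator_of_notMem (show y ∉ {y : ℝ | -c ≤ -y - u} from hy), if_neg hy, mul_zero]

/-- Schur's test for one translation -/
theorem corr_schur (h : TF g) {c : ℝ} (hs : ∀ x, x ∉ Icc (-c) c → g x = 0) (u : ℝ) :
    2 * (corr g u).re ≤ ∫ y, ‖g y‖ ^ 2 / pw y * (Gh c u y + Gh c u (-y)) := by
  have hcont := h.cont
  have hint : Integrable (fun y => ‖g y‖ * ‖g (y - u)‖) := by
    apply Continuous.integrable_of_hasCompactSupport (by fun_prop)
    exact h.supp.norm.mul_right
  have h1 : (corr g u).re ≤ ∫ y, ‖g y‖ * ‖g (y - u)‖ := by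
    refine (Complex.re_le_norm _).trans ?_
    unfold Helper61.W.corr
    refine norm_integral_le_of_norm_le hint (Eventually.of_forall fun y => ?_)
    rw [norm_mul, RCLike.norm_conj]
  have iA := Gh_int h c u
  have iB := Gh_int' h c u
  have iB' : Integrable (fun y => ‖g (y - u)‖ ^ 2 / pw (y - u) * Gh c u (-(y - u))) := iB.comp_sub_right u
  have eB : ∫ y, ‖g (y - u)‖ ^ 2 / pw (y - u) * Gh c u (-(y - u)) = ∫ y, ‖g y‖ ^ 2 / pw y * Gh c u (-y) :=
    integral_sub_right_eq_self (fun y => ‖g y‖ ^ 2 / pw y * Gh c u (-y)) u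
  have h2 : ∫ y, 2 * (‖g y‖ * ‖g (y - u)‖) ≤
      ∫ y, (‖g y‖ ^ 2 / pw y * Gh c u y + ‖g (y - u)‖ ^ 2 / pw (y - u) * Gh c u (-(y - u))) := by
    refine integral_mono (hint.const_mul 2) (iA.add iB') fun y => ?_
    simp only
    have hp1 := pw_pos y
    have hp2 := pw_pos (y - u)
    by_cases hy : g y = 0
    · rw [hy, norm_zero, zero_mul, mul_zero]
      have := Gh_nonneg c u (-(y - u))
      have := Gh_nonneg c u y
      positivity
    by_cases hy2 : g (y - u) = 0
    · rw [hy2, norm_zero, mul_zero, mul_zero]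
      have := Gh_nonneg c u y
      have := Gh_nonneg c u (-(y - u))
      positivity
    have m1 : y ∈ Icc (-c) c := by
      by_contra hc
      exact hy (hs _ hc)
    have m2 : y - u ∈ Icc (-c) c := by
      by_contra hc
      exact hy2 (hs _ hc)
    have e1 : Gh c u y = pw (y - u) := by
      unfold Gh
      rw [if_pos m2.1]
    have e2 : Gh c u (-(y - u)) = pw y := by
      unfold Gh
      rw [if_pos (by linarith [m1.2])]
      rw [show -(y - u) - u = -y by ring, pw_neg]
    rw [e1, e2]
    have h3 : ‖g y‖ ^ 2 / pw y * pw (y - u) + ‖g (y - u)‖ ^ 2 / pw (y - u) * pw y - 2 * (‖g y‖ * ‖g (y - u)‖) =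
        (‖g y‖ * pw (y - u) - ‖g (y - u)‖ * pw y) ^ 2 / (pw y * pw (y - u)) := by
      field_simp
      ring
    have h4 : 0 ≤ (‖g y‖ * pw (y - u) - ‖g (y - u)‖ * pw y) ^ 2 / (pw y * pw (y - u)) := by positivity
    linarith
  rw [integral_add iA iB', eB, ← integral_add iA iB, integral_const_mul] at h2
  have e3 : ∫ y, ‖g y‖ ^ 2 / pw y * (Gh c u y + Gh c u (-y)) =
      ∫ y, (‖g y‖ ^ 2 / pw y * Gh c u y + ‖g y‖ ^ 2 / pw y * Gh c u (-y)) := by
    congr 1
    funext y
    ring
  rw [e3]
  linarith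

/-- half of the row sum -/
lemma half_row {ε C cm : ℝ} (hψ : ∀ x : ℝ, 0 ≤ x → Chebyshev.psi x ≤ (1 + ε) * x + C)
    (hm : ∀ ℓ : ℝ, 0 ≤ ℓ → ∀ y : ℝ, y ≤ ℓ →
      ∑ n ∈ Finset.range (⌊Real.exp y⌋₊ + 1), ArithmeticFunction.vonMangoldt n / n ≤ cm * (1 + ℓ))
    {c : ℝ} (hc : 0 ≤ c) {y : ℝ} (hy : y ∈ Icc (-c) c) (S : Finset ℕ) :
    ∑ n ∈ S, ArithmeticFunction.vonMangoldt n / Real.sqrt n * Gh c (Real.log n) y ≤
      Real.exp (y / 2) * (cm * (1 + 2 * c) + (1 + ε) * Real.exp c) + Real.exp (-(y / 2)) * C := by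
  have h0 : ∀ n : ℕ, 0 ≤ ArithmeticFunction.vonMangoldt n / Real.sqrt n * Gh c (Real.log n) y := by
    intro n
    have := Gh_nonneg c (Real.log n) y
    have := ArithmeticFunction.vonMangoldt_nonneg (n := n)
    positivity
  set T : Finset ℕ := Finset.range (⌊Real.exp (y + c)⌋₊ + 1) with hT
  have h1 : ∑ n ∈ S, ArithmeticFunction.vonMangoldt n / Real.sqrt n * Gh c (Real.log n) y ≤
      ∑ n ∈ T, ArithmeticFunction.vonMangoldt n / Real.sqrt n * Gh c (Real.log n) y := by
    have h2 : ∑ n ∈ S, ArithmeticFunction.vonMangoldt n / Real.sqrt n * Gh c (Real.log n) y =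
        ∑ n ∈ S ∩ T, ArithmeticFunction.vonMangoldt n / Real.sqrt n * Gh c (Real.log n) y := by
      symm
      refine Finset.sum_subset Finset.inter_subset_left fun n hn hn2 => ?_
      have hnT : n ∉ T := fun h3 => hn2 (Finset.mem_inter.mpr ⟨hn, h3⟩)
      rw [hT, Finset.mem_range, not_lt] at hnT
      have h3 : Real.exp (y + c) < n := by
        have := Nat.lt_floor_add_one (Real.exp (y + c))
        have h2 : ((⌊Real.exp (y + c)⌋₊ + 1 : ℕ) : ℝ) ≤ n := by exact_mod_cast hnT
        push_cast at h2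
        linarith
      have h4 : y + c < Real.log n := by
        rw [Real.lt_log_iff_exp_lt (lt_trans (Real.exp_pos _) h3)]
        exact h3
      unfold Gh
      rw [if_neg (by linarith), mul_zero]
    rw [h2]
    exact Finset.sum_le_sum_of_subset_of_nonneg Finset.inter_subset_right fun n _ _ => h0 n
  have h2 : ∀ n ∈ T, ArithmeticFunction.vonMangoldt n / Real.sqrt n * Gh c (Real.log n) y ≤
      Real.exp (y / 2) * (ArithmeticFunction.vonMangoldt n / n) +
        Real.exp (-(y / 2)) * ArithmeticFunction.vonMangoldt n := by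
    intro n hn
    rcases Nat.eq_zero_or_pos n with h0 | h0
    · subst h0
      simp
    have hnr : (0 : ℝ) < n := by exact_mod_cast h0
    have hΛ := ArithmeticFunction.vonMangoldt_nonneg (n := n)
    have hs0 : 0 < Real.sqrt n := Real.sqrt_pos.mpr hnr
    have hs2 : Real.sqrt n * Real.sqrt n = n := Real.mul_self_sqrt hnr.le
    have e1 : Real.exp (Real.log n / 2) = Real.sqrt n := by
      rw [Real.sqrt_eq_rpow, Real.rpow_def_of_pos hnr]
      ring_nf
    have h3 : Gh c (Real.log n) y ≤ pw (y - Real.log n) := by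
      unfold Gh
      split_ifs
      · exact le_rfl
      · exact (pw_pos _).le
    have e2 : pw (y - Real.log n) = Real.exp (y / 2) / Real.sqrt n + Real.exp (-(y / 2)) * Real.sqrt n := by
      unfold pw
      rw [show (y - Real.log n) / 2 = y / 2 - Real.log n / 2 by ring, Real.exp_sub, e1,
        show -(y / 2 - Real.log n / 2) = -(y / 2) + Real.log n / 2 by ring, Real.exp_add, e1]
    calc ArithmeticFunction.vonMangoldt n / Real.sqrt n * Gh c (Real.log n) y ≤
          ArithmeticFunction.vonMangoldt n / Real.sqrt n * pw (y - Real.log n) := by gcongr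
      _ = _ := by
        rw [e2]
        have e4 : ArithmeticFunction.vonMangoldt n / Real.sqrt n *
            (Real.exp (y / 2) / Real.sqrt n + Real.exp (-(y / 2)) * Real.sqrt n) =
            Real.exp (y / 2) * (ArithmeticFunction.vonMangoldt n / (Real.sqrt n * Real.sqrt n)) +
              Real.exp (-(y / 2)) * ArithmeticFunction.vonMangoldt n := by
          field_simp
        rw [e4, hs2]
  have h3 := h1.trans (Finset.sum_le_sum h2)
  rw [Finset.sum_add_distrib, ← Finset.mul_sum, ← Finset.mul_sum] at h3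
  have h4 := hm (2 * c) (by linarith) (y + c) (by linarith [hy.2])
  rw [← hT] at h4
  have h5 : ∑ n ∈ T, ArithmeticFunction.vonMangoldt n = Chebyshev.psi (Real.exp (y + c)) := by
    rw [Chebyshev.psi_eq_sum_Icc, hT, Nat.range_succ_eq_Icc_zero]
  rw [h5] at h3
  have h6 := hψ (Real.exp (y + c)) (Real.exp_pos _).le
  have e3 : Real.exp (-(y / 2)) * Real.exp (y + c) = Real.exp (y / 2) * Real.exp c := by
    rw [← Real.exp_add, ← Real.exp_add]
    congr 1
    ring
  calc _ ≤ _ := h3
    _ ≤ Real.exp (y / 2) * (cm * (1 + 2 * c)) + Real.exp (-(y / 2)) * ((1 + ε) * Real.exp (y + c) + C) := by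
      gcongr
    _ = _ := by
      have : Real.exp (-(y / 2)) * ((1 + ε) * Real.exp (y + c) + C) =
          (1 + ε) * (Real.exp (-(y / 2)) * Real.exp (y + c)) + Real.exp (-(y / 2)) * C := by ring
      rw [this, e3]
      ring

/-- the prime side -/
theorem prime_le {ε C cm : ℝ} (hψ : ∀ x : ℝ, 0 ≤ x → Chebyshev.psi x ≤ (1 + ε) * x + C)
    (hm : ∀ ℓ : ℝ, 0 ≤ ℓ → ∀ y : ℝ, y ≤ ℓ →
      ∑ n ∈ Finset.range (⌊Real.exp y⌋₊ + 1), ArithmeticFunction.vonMangoldt n / n ≤ cm * (1 + ℓ))
    (h : TF g) {c : ℝ} (hc : 0 ≤ c) (hs : ∀ x, x ∉ Icc (-c) c → g x = 0) (S : Finset ℕ) :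
    ∑ n ∈ S, 2 * (ArithmeticFunction.vonMangoldt n / Real.sqrt n) * (corr g (Real.log n)).re ≤
      ((1 + ε) * Real.exp c + cm * (1 + 2 * c) + C) * en g := by
  have hi : ∀ n : ℕ, Integrable (fun y => ‖g y‖ ^ 2 / pw y *
      (Gh c (Real.log n) y + Gh c (Real.log n) (-y))) := by
    intro n
    refine ((Gh_int h c (Real.log n)).add (Gh_int' h c (Real.log n))).congr (Eventually.of_forall fun y => ?_)
    simp only [Pi.add_apply]
    ring
  have h1 : ∀ n ∈ S, 2 * (ArithmeticFunction.vonMangoldt n / Real.sqrt n) * (corr g (Real.log n)).re ≤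
      ∫ y, (ArithmeticFunction.vonMangoldt n / Real.sqrt n) * (‖g y‖ ^ 2 / pw y *
        (Gh c (Real.log n) y + Gh c (Real.log n) (-y))) := by
    intro n hn
    rw [integral_const_mul]
    have h2 := corr_schur h hs (Real.log n)
    have h3 : 0 ≤ (ArithmeticFunction.vonMangoldt n : ℝ) / Real.sqrt n := by
      have := ArithmeticFunction.vonMangoldt_nonneg (n := n)
      positivity
    calc 2 * (ArithmeticFunction.vonMangoldt n / Real.sqrt n) * (corr g (Real.log n)).re =
          (ArithmeticFunction.vonMangoldt n / Real.sqrt n) * (2 * (corr g (Real.log n)).re) := by ring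
      _ ≤ _ := mul_le_mul_of_nonneg_left h2 h3
  refine (Finset.sum_le_sum h1).trans ?_
  rw [← integral_finsetSum _ (fun n _ => (hi n).const_mul _), en_eq_sq, ← integral_const_mul]
  have hcont := h.cont
  have h2int : Integrable (fun x => ‖g x‖ ^ 2) :=
    Continuous.integrable_of_hasCompactSupport (by fun_prop) (by
      have := h.supp.norm
      exact this.comp_left (g := fun y : ℝ => y ^ 2) (by simp))
  refine integral_mono (integrable_finsetSum _ fun n _ => (hi n).const_mul _) (h2int.const_mul _) fun y => ?_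
  simp only
  by_cases hy : y ∈ Icc (-c) c
  · have hy' : -y ∈ Icc (-c) c := ⟨by linarith [hy.2], by linarith [hy.1]⟩
    have a1 := half_row hψ hm hc hy S
    have a2 := half_row hψ hm hc hy' S
    have e1 : ∑ n ∈ S, ArithmeticFunction.vonMangoldt n / Real.sqrt n * (‖g y‖ ^ 2 / pw y *
        (Gh c (Real.log n) y + Gh c (Real.log n) (-y))) = ‖g y‖ ^ 2 / pw y *
        (∑ n ∈ S, ArithmeticFunction.vonMangoldt n / Real.sqrt n * Gh c (Real.log n) y +
          ∑ n ∈ S, ArithmeticFunction.vonMangoldt n / Real.sqrt n * Gh c (Real.log n) (-y)) := by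
      rw [← Finset.sum_add_distrib, Finset.mul_sum]
      exact Finset.sum_congr rfl fun n _ => by ring
    rw [e1]
    have hp := pw_pos y
    calc ‖g y‖ ^ 2 / pw y * (∑ n ∈ S, ArithmeticFunction.vonMangoldt n / Real.sqrt n * Gh c (Real.log n) y +
          ∑ n ∈ S, ArithmeticFunction.vonMangoldt n / Real.sqrt n * Gh c (Real.log n) (-y)) ≤
          ‖g y‖ ^ 2 / pw y * (((1 + ε) * Real.exp c + cm * (1 + 2 * c) + C) * pw y) := by
          gcongr
          rw [neg_div, neg_neg] at a2
          unfold pw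
          linarith
      _ = _ := by
        field_simp
  · rw [hs y hy]
    simp

end Pool.Agent.Helper42.WC
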